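import Pool.Agent.L0h14.MX.Ext
import Pool.Agent.Results.MP_57341d_ag.ConifoldFamilies

/-!
# Periods of extensions of Calabi-Yau families by the trivial motive

We consider one-parameter families of mixed motives over `ℚ` which are extensions of a family `V` of pure motives of rank `n` by
the trivial motive, or of the trivial motive by `V`, near a point `z = 0` with maximally unipotent monodromy: the matrices
of solutions are `Y(z) = H(z) exp(N log z)`, of size `n + 1`, where `N` is nilpotent with `N^n ≠ 0`, and the entries of `H`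
and of `H⁻¹` are G-functions with rational coefficients. We assume that `H` converges for `|z| < ρ` and that the local
monodromy `T` of `Y` at the singularity `ρ > 0` is a pseudo-reflection; for the block of `V` we assume that
`tr(N^(n-1) (1 - T)) ≠ 0`, so that the family `V` is a family of Calabi-Yau type with a conifold point at `ρ`.

Examples are given by the differential equations `L θ y = 0` and `θ L y = 0`, where `L` is the Picard-Fuchs equation of a family
of Calabi-Yau varieties with a point of maximal degeneration (for example a hypergeometric or an Apéry-like equation), and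
`θ = z d/dz`. The solutions of the first one are the primitives `∫ f dz / z` of the periods `f`; they are the regulators
of the elements of `K`-theory given by the coordinates in families `P(x) = 1 / z` of tempered Laurent polynomials `P` (for
instance Mahler measures of families of polynomials), and occur in local mirror symmetry. The solutions of the second one
are the solutions of inhomogeneous Picard-Fuchs equations `L y = c`, as for higher normal functions.

The group `G_i` is the semidirect product of the vector group of dimension `n` with the symplectic group, the orthogonal group or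
the special linear group. The periods of the fibre at `z = 1 / t` are the entries of `Y(1 / t) Ω`, where `Ω` is a constant
matrix. We prove for `k` such fibres, at `k` points and possibly of different families: for almost all `k`-tuples of
integers `t_i` in any box all relations of bounded degree between the numbers `log t_i` and the periods, over any finite
dimensional space of constants, vanish on `ℂ^k × ∏_i Y_i(1 / t_i) G_i Ω_i`. So the relations come from the intersection form of
the pure part, and there is no relation between the periods of the extension and those of the pure part.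
-/

set_option autoImplicit false

open PowerSeries Module

namespace Pool.Agent.Results.MP_1eadae_ag.MixedConifoldFamilies

open Pool.Agent.Results.MP_57341d_ag.ConifoldFamilies (Data Kind toQ GCond Nq_cm sdc Y_eq Yg_eq grp mem_grp)

/-- The position of the trivial motive: it is a subobject or a quotient of the mixed motive. -/
inductive Side
  | sub
  | quot

/-- The matrix `g` preserves the first basis vector, respectively the first coordinate. -/
def Side.Fix {n : ℕ} (g : Matrix (Fin (n + 1)) (Fin (n + 1)) ℂ) : Side → Prop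
  | Side.sub => g 0 0 = 1 ∧ ∀ i : Fin n, g i.succ 0 = 0
  | Side.quot => g 0 0 = 1 ∧ ∀ j : Fin n, g 0 j.succ = 0

/-- the block of the pure part -/
def block {n : ℕ} (g : Matrix (Fin (n + 1)) (Fin (n + 1)) ℂ) : Matrix (Fin n) (Fin n) ℂ := g.submatrix Fin.succ Fin.succ

/-- The conditions on the data (`F.N` is the logarithm of the monodromy at `0`, `F.H` the holomorphic part of the
solutions, `F.ρ` the nearest singularity and `F.T` the local monodromy at `ρ`): `N^(n+1) = 0` and `N^n ≠ 0` (maximally unipotent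
monodromy), `H(0) = 1`, the differential equation `T₁ (z H' + H N) = A H` with integer polynomials, the entries of `H` and of its inverse are G-functions, the entries of `H`
converge for `|z| < ρ`, the local monodromy at `ρ`, that is the continuation `Φ` of `Y(ρ (1 - e^s))` to a half plane
`Re s < log ε` satisfies `Φ(s + 2 π i) = Φ(s) T`, and `T` is a pseudo-reflection with `|det T| = 1` (for families of geometric
origin, `det T` is a root of unity). The first basis vector (the first coordinate) is preserved by the monodromy, and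
`tr(N^(n-1) (1 - T)) ≠ 0`. -/
structure Good {n : ℕ} (F : Data (n + 1)) (σ : Side) : Prop where
  rank : 1 ≤ n
  nil : F.N ^ (n + 1) = 0
  mum : F.N ^ n ≠ 0
  init : ∀ i j, coeff 0 (F.H i j) = if i = j then 1 else 0
  ode : ∃ (T₁ : Polynomial ℤ) (A : Matrix (Fin (n + 1)) (Fin (n + 1)) (Polynomial ℤ)), T₁ ≠ 0 ∧ ∀ i j,
    toQ T₁ * (X * PowerSeries.derivative ℚ (F.H i j) + ∑ k, F.H i k * C (F.N k j : ℚ)) = ∑ k, toQ (A i k) * F.H k j
  gfun : ∀ i j, GCond (F.H i j)
  gfun_inv : ∃ W : Matrix (Fin (n + 1)) (Fin (n + 1)) ℚ⟦X⟧, F.H * W = 1 ∧ ∀ i j, GCond (W i j)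
  pos : 0 < F.ρ
  conv : ∀ r : ℝ, 0 < r → r < F.ρ → ∀ i j, Summable fun m : ℕ => |((coeff m (F.H i j) : ℚ) : ℝ)| * r ^ m
  mono : ∃ (ε : ℝ) (Φ : ℂ → Matrix (Fin (n + 1)) (Fin (n + 1)) ℂ), 0 < ε ∧ ε ≤ 1 ∧
    (∀ i j, AnalyticOnNhd ℂ (fun s => Φ s i j) {s | s.re < Real.log ε}) ∧
    (∀ x : ℝ, 1 - ε < x → x < 1 → F.Y (F.ρ * x) = Φ (Real.log (1 - x) : ℝ)) ∧
    ∀ s : ℂ, s.re < Real.log ε → Φ (s + 2 * Real.pi * Complex.I) = Φ s * F.T
  refl : ∃ u p : Fin (n + 1) → ℂ, F.T = 1 - Matrix.vecMulVec u p
  det : ‖F.T.det‖ = 1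
  fixN : σ.Fix (1 + F.Nc)
  fixT : σ.Fix F.T
  corner : (F.Nc ^ (n - 1) * (1 - F.T)).trace ≠ 0

/-- The types of the pure part, with the monodromy given by `exp(s N)` and `T`: `J` is a nondegenerate alternating or
symmetric form which is preserved, or there is no nondegenerate bilinear form which is preserved. -/
def Admissible {n : ℕ} (N T : Matrix (Fin n) (Fin n) ℂ) : Kind n → Prop
  | Kind.symplectic J => J.transpose = -J ∧ J.det ≠ 0 ∧ N.transpose * J + J * N = 0 ∧ T.transpose * J * T = J
  | Kind.orthogonal J => J.transpose = J ∧ J.det ≠ 0 ∧ N.transpose * J + J * N = 0 ∧ T.transpose * J * T = J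
  | Kind.linear => ∀ J : Matrix (Fin n) (Fin n) ℂ, J.det ≠ 0 → N.transpose * J + J * N = 0 → T.transpose * J * T ≠ J

/-- The matrices which preserve the first basis vector (the first coordinate), and whose block is in the symplectic
group, the orthogonal group or the special linear group. -/
def Group {n : ℕ} (σ : Side) (κ : Kind n) : Set (Matrix (Fin (n + 1)) (Fin (n + 1)) ℂ) :=
  {g | σ.Fix g ∧ block g ∈ Pool.Agent.Results.MP_57341d_ag.ConifoldFamilies.Group κ}

/-- the point with the coordinates `l_i` and the entries of the matrices `X_i` -/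
def point {k : ℕ} {n : Fin k → ℕ} (l : Fin k → ℂ) (X : ∀ i, Matrix (Fin (n i)) (Fin (n i)) ℂ) :
    (Σ i : Fin k, Option (Fin (n i) × Fin (n i))) → ℂ
  | ⟨i, none⟩ => l i
  | ⟨i, some p⟩ => X i p.1 p.2

/-- There is a polynomial relation of degree `≤ δ` with coefficients in `V` between the numbers `log t_i` and the
entries of the matrices `Y_i(1 / t_i) Ω_i` which does not vanish identically on `ℂ^k × ∏_i Y_i(1 / t_i) G_i Ω_i`. -/
def Exceptional (δ : ℕ) (V : Submodule ℚ ℂ) {k : ℕ} {n : Fin k → ℕ} (F : ∀ i, Data (n i + 1)) (σ : Fin k → Side)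
    (κ : ∀ i, Kind (n i)) (Ω : ∀ i, Matrix (Fin (n i + 1)) (Fin (n i + 1)) ℂ) (t : Fin k → ℕ) : Prop :=
  ∃ P : MvPolynomial (Σ i : Fin k, Option (Fin (n i + 1) × Fin (n i + 1))) ℂ, P.totalDegree ≤ δ ∧ (∀ s, P.coeff s ∈ V) ∧
    MvPolynomial.aeval (point (fun i => ((Real.log (t i) : ℝ) : ℂ)) fun i => (F i).Y (1 / t i) * Ω i) P = 0 ∧
    ∃ (l : Fin k → ℂ) (g : ∀ i, Matrix (Fin (n i + 1)) (Fin (n i + 1)) ℂ), (∀ i, g i ∈ Group (σ i) (κ i)) ∧
      MvPolynomial.aeval (point l fun i => (F i).Y (1 / t i) * g i * Ω i) P ≠ 0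

/-! ### The system -/

/-- the group as a monoid -/
def mgrp {n : ℕ} (κ : Kind n) : Side → Submonoid (Matrix (Fin (n + 1)) (Fin (n + 1)) ℂ)
  | Side.sub => Pool.Agent.L0h14.MX.mB (grp κ)
  | Side.quot => Pool.Agent.L0h14.MX.mA (grp κ)

theorem mem_mgrp {n : ℕ} {σ : Side} {κ : Kind n} {g : Matrix (Fin (n + 1)) (Fin (n + 1)) ℂ} :
    g ∈ mgrp κ σ ↔ g ∈ Group σ κ := by
  have h1 : ∀ M : Matrix (Fin n) (Fin n) ℂ, M ∈ grp κ ↔ M ∈ Pool.Agent.Results.MP_57341d_ag.ConifoldFamilies.Group κ :=
    fun M => mem_grp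
  rcases σ with _ | _
  · show (g 0 0 = 1 ∧ (∀ i : Fin n, g i.succ 0 = 0) ∧ _ ∈ grp κ) ↔ ((g 0 0 = 1 ∧ ∀ i : Fin n, g i.succ 0 = 0) ∧ _ ∈ _)
    rw [h1, and_assoc]
    rfl
  · show (g 0 0 = 1 ∧ (∀ j : Fin n, g 0 j.succ = 0) ∧ _ ∈ grp κ) ↔ ((g 0 0 = 1 ∧ ∀ j : Fin n, g 0 j.succ = 0) ∧ _ ∈ _)
    rw [h1, and_assoc]
    rfl

open Matrix in
/-- **The structure of good families.** -/
theorem system {n : ℕ} {F : Data (n + 1)} {σ : Side} (h : Good F σ) :
    ∃ κ : Kind n, Admissible (block F.Nc) (block F.T) κ ∧ Pool.Agent.L0h14.HO.SYR (n + 1) F.Nq F.H (mgrp κ σ) F.ρ := by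
  have hnil : F.Nq ^ (n + 1) = 0 := by
    have h1 := map_pow (RingHom.mapMatrix (Int.castRingHom ℚ)) F.N (n + 1)
    rw [h.nil, map_zero] at h1
    exact h1.symm
  have hNc : F.Nc ^ (n + 1) = 0 := by
    rw [← Nq_cm]
    exact Pool.Agent.L0h14.HO.cmN_nil hnil
  have hn := h.rank
  have hcv : ∀ t : ℝ, 1 / F.ρ < t → ∀ i j, Pool.Agent.Y113.Cv t (F.H i j) := by
    intro t ht i j
    have hρ := h.pos
    have h0 : 0 < t := lt_trans (by positivity) ht
    refine h.conv (1 / t) (by positivity) ?_ i j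
    rw [div_lt_iff₀ h0]
    rw [div_lt_iff₀ hρ] at ht
    linarith
  obtain ⟨u, p, hT⟩ := h.refl
  have hdet := h.det
  have hfN := h.fixN
  have hfT := h.fixT
  have hext : F.Nc ^ n ≠ 0 := by
    intro h0
    apply h.mum
    have h1 : (F.N ^ n).map (Int.castRingHom ℂ) = (F.N.map (Int.castRingHom ℂ)) ^ n :=
      map_pow (RingHom.mapMatrix (Int.castRingHom ℂ)) F.N n
    have h2 : (F.N.map (Int.castRingHom ℂ)) ^ n = 0 := h0
    rw [h2] at h1
    ext i j
    have h3 := congrFun (congrFun h1 i) j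
    simpa using h3
  have hcorner : p ⬝ᵥ ((F.Nc ^ (n - 1)) *ᵥ u) ≠ 0 := by
    have h1 := h.corner
    rw [hT, sub_sub_cancel, Matrix.mul_vecMulVec, Matrix.trace_vecMulVec, dotProduct_comm] at h1
    exact h1
  have hML : Pool.Agent.L0h14.MX.ML F.Nq F.H F.ρ u p := by
    refine ⟨hnil, h.pos, hcv, ?_, ?_⟩
    · rw [← hT]
      intro h0
      rw [h0, norm_zero] at hdet
      exact zero_ne_one hdet
    · obtain ⟨ε, Φ, h1, h2, h3, h4, h5⟩ := h.mono
      refine ⟨ε, Φ, h1, h2, h3, fun x hx hx1 => ?_, fun s hs => ?_⟩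
      · have h6 : 0 < F.ρ * x := mul_pos h.pos (by linarith)
        rw [← Complex.ofReal_mul, ← Y_eq F h6]
        exact h4 x hx hx1
      · rw [← hT]
        exact h5 s hs
  obtain ⟨T₁, A, hT1, hode⟩ := h.ode
  obtain ⟨W, hW1, hW2⟩ := h.gfun_inv
  have hu : u ≠ 0 := by
    rintro rfl
    rw [mulVec_zero, dotProduct_zero] at hcorner
    exact hcorner rfl
  have hp : p ≠ 0 := by
    rintro rfl
    rw [zero_dotProduct] at hcorner
    exact hcorner rfl
  have key : ∀ κ : Kind n, (∀ s : ℂ, Pool.Agent.Y119.HY.E F.Nc s ∈ mgrp κ σ) → (∀ g ∈ mgrp κ σ, g ∈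
      Pool.Agent.Y119.HY.Gal fun z => Pool.Agent.Y119.HY.Yf (Pool.Agent.Y119.HY.cm F.Nq) (Pool.Agent.L0h14.HO.Hcc F.H)
        ((F.ρ : ℂ) * z)) → Pool.Agent.L0h14.HO.SYR (n + 1) F.Nq F.H (mgrp κ σ) F.ρ := by
    intro κ k1 k2
    exact
      { nil := hnil
        int := ⟨fun i j => F.N i j, fun i j => rfl⟩
        ode := ⟨T₁, fun i j => A i j, hT1, fun i j => hode i j⟩
        h0 := h.init
        sdc := fun i j => sdc (h.gfun i j)
        wex := ⟨W, hW1, fun i j => sdc (hW2 i j)⟩
        pos := h.pos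
        cv := hcv
        unip := by rw [Nq_cm]; exact k1
        inv := k2 }
  -- the pure part
  have pure_part : ∀ (M : Matrix (Fin n) (Fin n) ℂ) (u' p' : Fin n → ℂ), M ^ n = 0 → p' ⬝ᵥ ((M ^ (n - 1)) *ᵥ u') ≠ 0 →
      (1 - vecMulVec u' p').det ≠ 0 → ∃ κ : Kind n, Admissible M (1 - vecMulVec u' p') κ ∧
        (∀ s, Pool.Agent.Y119.HY.E M s ∈ grp κ) ∧
        Pool.Agent.L0h14.MX.Dns M u' p' (grp κ : Set (Matrix (Fin n) (Fin n) ℂ)) := by
    intro M u' p' hM hup hd
    rcases Pool.Agent.L0h14.HO.tri_form hM hup with ⟨J, h1, h2, h3, h4⟩ | ⟨J, h1, h2, h3, h4⟩ | h1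
    · exact ⟨Kind.symplectic J, ⟨h1, h2, h3, h4⟩, fun s => Pool.Agent.Y119.HY.E_isom hM h3 s,
        Pool.Agent.L0h14.MX.dns_sp hM hup h1 h2 h3 h4⟩
    · exact ⟨Kind.orthogonal J, ⟨h1, h2, h3, h4⟩, fun s => Pool.Agent.Y119.HY.E_isom hM h3 s,
        Pool.Agent.L0h14.MX.dns_so hM hup h1 h2 h3 h4⟩
    · refine ⟨Kind.linear, h1, fun s => ?_, ?_⟩
      · show (Pool.Agent.Y119.HY.E M s).det ^ 1 = 1
        rw [Pool.Agent.L0h14.HO.det_EN hM, one_pow]
      · intro S₁ k1 k2 k3 k4 g hg
        have hg' : g.det ^ 1 = 1 := hg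
        rw [pow_one] at hg'
        exact Pool.Agent.L0h14.MX.dns_sl hM hn hup hd h1 S₁ k1 k2 k3 k4 g hg'
  rcases σ with _ | _
  · -- a trivial subobject
    have hN0 : ∀ i, F.Nc i 0 = 0 := by
      intro i
      obtain ⟨h1, h2⟩ := hfN
      induction i using Fin.cases with
      | zero => simpa using h1
      | succ i =>
        have := h2 i
        rw [Matrix.add_apply, Matrix.one_apply_ne (Fin.succ_ne_zero i), zero_add] at this
        exact this
    have hp0 : p 0 = 0 := by
      obtain ⟨h1, h2⟩ := hfT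
      rw [hT] at h1 h2
      by_contra hcon
      refine hu (funext fun i => ?_)
      induction i using Fin.cases with
      | zero =>
        rw [Matrix.sub_apply, Matrix.one_apply_eq, vecMulVec_apply, sub_eq_self] at h1
        exact (mul_eq_zero.1 h1).resolve_right hcon
      | succ i =>
        have := h2 i
        rw [Matrix.sub_apply, Matrix.one_apply_ne (Fin.succ_ne_zero i), vecMulVec_apply, zero_sub, neg_eq_zero] at this
        exact (mul_eq_zero.1 this).resolve_right hcon
    have hMn : block F.Nc ^ n = 0 := Pool.Agent.L0h14.MX.low_nil hN0 hNc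
    have hbT : block F.T = 1 - vecMulVec (fun i => u i.succ) (fun i => p i.succ) := by
      rw [hT]
      ext i j
      simp [block, vecMulVec_apply, Matrix.one_apply]
    have hbc : (fun i : Fin n => p i.succ) ⬝ᵥ ((block F.Nc ^ (n - 1)) *ᵥ fun i => u i.succ) ≠ 0 := by
      have := Pool.Agent.L0h14.MX.corner_low (u := u) hN0 hp0 (n - 1)
      rw [this] at hcorner
      exact hcorner
    have hbd : (1 - vecMulVec (fun i : Fin n => u i.succ) (fun i => p i.succ)).det ≠ 0 := by
      have h1 : (fun i : Fin n => p i.succ) ⬝ᵥ (fun i => u i.succ) = p ⬝ᵥ u := by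
        rw [dotProduct, dotProduct, Fin.sum_univ_succ, hp0, zero_mul, zero_add]
      rw [Pool.Agent.L0h14.MX.det_psr, h1, ← Pool.Agent.L0h14.MX.det_psr]
      exact hML.det
    obtain ⟨κ, k1, k2, k3⟩ := pure_part _ _ _ hMn hbc hbd
    refine ⟨κ, by rw [hbT]; exact k1, key κ (fun s => ?_) fun g hg => ?_⟩
    · refine ⟨Pool.Agent.L0h14.MX.E_00 hN0 s, Pool.Agent.L0h14.MX.E_s0 hN0 s, ?_⟩
      rw [Pool.Agent.L0h14.MX.E_low hN0 hNc]
      exact k2 s
    · refine hML.galB hn (by rw [Nq_cm]; exact hN0) hp0 (by rw [Nq_cm]; exact hcorner) ?_ (by rw [← hT]; exact hdet)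
        (by rw [Nq_cm]; exact k3) g hg
      rw [Nq_cm]
      refine Pool.Agent.L0h14.MX.ext_of hn hN0 hNc (fun h0 => ?_) hext
      apply hbc
      have h1 : (block F.Nc ^ (n - 1)) *ᵥ (fun i => u i.succ) = 0 := h0
      rw [h1, dotProduct_zero]
  · -- a trivial quotient
    have hN0 : ∀ j, F.Nc 0 j = 0 := by
      intro j
      obtain ⟨h1, h2⟩ := hfN
      induction j using Fin.cases with
      | zero => simpa using h1
      | succ j =>
        have := h2 j
        rw [Matrix.add_apply, Matrix.one_apply_ne (Fin.succ_ne_zero j).symm, zero_add] at this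
        exact this
    have hu0 : u 0 = 0 := by
      obtain ⟨h1, h2⟩ := hfT
      rw [hT] at h1 h2
      by_contra hcon
      refine hp (funext fun j => ?_)
      induction j using Fin.cases with
      | zero =>
        rw [Matrix.sub_apply, Matrix.one_apply_eq, vecMulVec_apply, sub_eq_self] at h1
        exact (mul_eq_zero.1 h1).resolve_left hcon
      | succ j =>
        have := h2 j
        rw [Matrix.sub_apply, Matrix.one_apply_ne (Fin.succ_ne_zero j).symm, vecMulVec_apply, zero_sub, neg_eq_zero] at this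
        exact (mul_eq_zero.1 this).resolve_left hcon
    have hNt0 : ∀ i, F.Ncᵀ i 0 = 0 := hN0
    have hNct : F.Ncᵀ ^ (n + 1) = 0 := by rw [← transpose_pow, hNc, transpose_zero]
    have hMn : block F.Nc ^ n = 0 := by
      have h1 := Pool.Agent.L0h14.MX.low_nil hNt0 hNct
      have h2 : (block F.Nc)ᵀ ^ n = 0 := h1
      rw [← transpose_pow] at h2
      exact transpose_eq_zero.1 h2
    have hbT : block F.T = 1 - vecMulVec (fun i => u i.succ) (fun i => p i.succ) := by
      rw [hT]
      ext i j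
      simp [block, vecMulVec_apply, Matrix.one_apply]
    have hbc : (fun i : Fin n => p i.succ) ⬝ᵥ ((block F.Nc ^ (n - 1)) *ᵥ fun i => u i.succ) ≠ 0 := by
      have h1 := Pool.Agent.L0h14.MX.corner_low (u := p) (p := u) hNt0 hu0 (n - 1)
      rw [← transpose_pow, mulVec_transpose, dotProduct_comm, ← dotProduct_mulVec] at h1
      rw [h1] at hcorner
      have h2 : Pool.Agent.L0h14.MX.low F.Ncᵀ ^ (n - 1) = (block F.Nc ^ (n - 1))ᵀ := by
        rw [transpose_pow]
        rfl
      rw [h2, mulVec_transpose, dotProduct_comm, ← dotProduct_mulVec] at hcorner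
      exact hcorner
    have hbd : (1 - vecMulVec (fun i : Fin n => u i.succ) (fun i => p i.succ)).det ≠ 0 := by
      have h1 : (fun i : Fin n => p i.succ) ⬝ᵥ (fun i => u i.succ) = p ⬝ᵥ u := by
        rw [dotProduct, dotProduct, Fin.sum_univ_succ, hu0, mul_zero, zero_add]
      rw [Pool.Agent.L0h14.MX.det_psr, h1, ← Pool.Agent.L0h14.MX.det_psr]
      exact hML.det
    obtain ⟨κ, k1, k2, k3⟩ := pure_part _ _ _ hMn hbc hbd
    refine ⟨κ, by rw [hbT]; exact k1, key κ (fun s => ?_) fun g hg => ?_⟩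
    · have e1 : Pool.Agent.Y119.HY.E F.Nc s = (Pool.Agent.Y119.HY.E F.Ncᵀ s)ᵀ := by
        rw [Pool.Agent.L0h14.HO.E_transpose, transpose_transpose]
      refine ⟨?_, fun j => ?_, ?_⟩
      · rw [e1]
        exact Pool.Agent.L0h14.MX.E_00 hNt0 s
      · rw [e1]
        exact Pool.Agent.L0h14.MX.E_s0 hNt0 s j
      · have e2 : Pool.Agent.L0h14.MX.low (Pool.Agent.Y119.HY.E F.Nc s) = Pool.Agent.Y119.HY.E (block F.Nc) s := by
          have e3 := Pool.Agent.L0h14.MX.E_low hNt0 hNct s
          have e4 : Pool.Agent.L0h14.MX.low F.Ncᵀ = (block F.Nc)ᵀ := rfl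
          rw [e4, Pool.Agent.L0h14.HO.E_transpose, Pool.Agent.L0h14.HO.E_transpose] at e3
          exact transpose_injective e3
        rw [e2]
        exact k2 s
    · refine hML.galA hn (by rw [Nq_cm]; exact hN0) hu0 (by rw [Nq_cm]; exact hcorner) ?_ (by rw [← hT]; exact hdet)
        (by rw [Nq_cm]; exact k3) g hg
      rw [Nq_cm]
      have h1 := Pool.Agent.L0h14.MX.ext_of (u := p) hn hNt0 hNct (fun h0 => ?_) (fun h0 => ?_)
      · rwa [← transpose_pow, mulVec_transpose] at h1
      · apply hbc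
        have h2 : Pool.Agent.L0h14.MX.low F.Ncᵀ ^ (n - 1) = (block F.Nc ^ (n - 1))ᵀ := by
          rw [transpose_pow]
          rfl
        rw [h2, mulVec_transpose] at h0
        rw [dotProduct_mulVec, h0, zero_dotProduct]
      · rw [← transpose_pow] at h0
        exact hext (transpose_eq_zero.1 h0)

/-- Let `F_1, …, F_k` be good families of mixed motives, of rank `n_i + 1`. The pure parts have types: `exp(s N)` and the local
monodromy at `ρ` preserve a nondegenerate alternating form `J`, or a nondegenerate symmetric form `J`, or no nondegenerate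
bilinear form; let `G_i` be the group of the matrices which preserve the first basis vector (the first coordinate) and whose
block is in `Sp(J)`, `O(J)` or `SL_n`. For all `δ` and `D` there are `c > 0` and `C` such that for every `ℚ`-space `V` of complex
numbers of dimension `≤ D`, all complex matrices `Ω_i` and every box `∏_i (x_i, x_i + B]` with `ρ_i x_i ≥ 1` the following
holds for all but `C B^(k-1) ∑_i (1 + B / (x_i + B)^c)` integral points `t` of the box: every polynomial relation of degree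
`≤ δ` with coefficients in `V` between the numbers `log t_i` and the entries of the matrices `Y_i(1 / t_i) Ω_i` vanishes identically
on `ℂ^k × ∏_i Y_i(1 / t_i) G_i Ω_i`. -/
theorem result {k : ℕ} {n : Fin k → ℕ} (F : ∀ i, Data (n i + 1)) (σ : Fin k → Side) (hF : ∀ i, Good (F i) (σ i)) :
    ∃ κ : ∀ i, Kind (n i), (∀ i, Admissible (block (F i).Nc) (block (F i).T) (κ i)) ∧ ∀ δ D : ℕ, ∃ c C : ℝ, 0 < c ∧
      ∀ V : Submodule ℚ ℂ, Module.Finite ℚ V → Module.finrank ℚ V ≤ D →
      ∀ (Ω : ∀ i, Matrix (Fin (n i + 1)) (Fin (n i + 1)) ℂ) (x : Fin k → ℕ) (B : ℕ), (∀ i, 1 ≤ (F i).ρ * x i) → 1 ≤ B →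
      (({t : Fin k → ℕ | (∀ i, x i < t i ∧ t i ≤ x i + B) ∧ Exceptional δ V F σ κ Ω t}.ncard : ℕ) : ℝ) ≤
        C * (B : ℝ) ^ (k - 1) * ∑ i, (1 + B / ((x i : ℝ) + B) ^ c) := by
  classical
  choose κ hκ hS using fun i => system (hF i)
  refine ⟨κ, hκ, fun δ D => ?_⟩
  obtain ⟨c, C, hc, -, hmain⟩ := Pool.Agent.L0h14.HO.tuplesR k δ D (fun i => n i + 1) (fun i => (F i).Nq) (fun i => (F i).H)
    (fun i => mgrp (κ i) (σ i)) (fun i => (F i).ρ) hS
  refine ⟨c, C, hc, ?_⟩
  intro V hVf hV Ω x B hx hB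
  set S := {t : Fin k → ℕ | (∀ i, x i < t i ∧ t i ≤ x i + B) ∧ Exceptional δ V F σ κ Ω t} with hSd
  have hfin : S.Finite := by
    refine (Set.finite_Iic (fun i : Fin k => x i + B)).subset ?_
    intro t ht i
    exact (ht.1 i).2
  rw [Set.ncard_eq_toFinset_card S hfin]
  refine hmain V hV Ω x B hx hB _ fun t ht => ?_
  have ht' : t ∈ S := hfin.mem_toFinset.1 ht
  obtain ⟨hbox, P, h1, h2, h3, l, g, hg, h4⟩ := ht'
  have ht0 : ∀ i, 0 < t i := fun i => lt_of_le_of_lt (Nat.zero_le _) (hbox i).1
  have e1 : ∀ (l : Fin k → ℂ) (X : ∀ i, Matrix (Fin (n i + 1)) (Fin (n i + 1)) ℂ),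
      point (n := fun i => n i + 1) l X = Pool.Agent.Y119.HZ.pw l X := by
    intro l X
    funext v
    obtain ⟨i, _ | p⟩ := v <;> rfl
  have e2 : ∀ i, (F i).Y (1 / t i) = Pool.Agent.L0h14.HO.Yg (F i).Nq (F i).H (t i) := fun i => Yg_eq (F i) (ht0 i)
  simp only [e1, e2] at h3 h4
  exact ⟨hbox, P, h1, h2, h3, l, g, fun i => mem_mgrp.2 (hg i), h4⟩

end Pool.Agent.Results.MP_1eadae_ag.MixedConifoldFamilies
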