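import Pool.Agent.L0h12.PT.Rcd
import Pool.Agent.L0h12.CM.Prime
import Pool.Agent.R917.DT.Stb

set_option autoImplicit false

/-!
# The period torsors of 1-motives over abelian varieties with complex multiplication, and over their
# products with rigid abelian varieties

Let `A` be an abelian variety over the field `ℚ̄` of algebraic numbers, with a polarization `φ`. Let
`P_i = exp(u_i)` and `Q_l = φ(exp(v_l))` be algebraic points of `A` and of the dual abelian variety,
`G_Q` the extension of `A` by `G_m^s` given by the `Q_l`, and `M = [ℤ^n → G_Q]` a 1-motive over `ℚ̄`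
with the images `e_i ↦ R_i` above `P_i`. The periods of `M` are `2 π i`, the periods and
quasi-periods of `A`, the abelian integrals `u_i` and the integrals of the second kind `h_k(u_i)`,
the periods of the third kind `∑ k, (h_k(v_l) λ_k - v_lk η_k)`, and the integrals of the third kind
`ℓ_il`. The points `R_i` are algebraic, and this means for the logarithms `ℓ_il` that

  `exp(ℓ_il) = q_il · θ(u_i - v_l) / (θ(u_i) θ(-v_l)) · exp(∑ k, h_k(v_l) u_ik)`, `q_il` algebraic:

the function `z ↦ θ(z - v) / (θ(z) θ(-v)) · exp(∑ k, h_k(v) z_k)` is the pullback of a rational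
section, over `ℚ̄`, of the extension of `A` by `G_m` given by `v`. We assume that the arguments of
the theta functions are not in the divisor of `θ`. So we get all 1-motives over `A`, up to isogeny.

The motivic Galois group of `M` is the Mumford-Tate group `MT(M)` of the mixed Hodge structure
`H_1(M)` (Brylinski, André): the smallest algebraic group over `ℚ` which contains the image of the
Deligne torus, which acts on the subspaces `I^{p,q}` of `H_1(M, ℂ)` given by Deligne's splitting.

The spectrum of the algebra of the formal periods of Kontsevich is the torsor of the isomorphisms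
between the de Rham and the Betti realization; that the evaluation map is injective means that the
comparison isomorphism is a generic point of this torsor. So Q1 implies for the motive `M` that
the comparison isomorphism of `M` is a generic point, over `ℚ̄`, of its torsor under the motivic Galois
group `MT(M)`, and in particular that

(*) every algebraic group `G ⊆ GL(H_B(M))` over `ℚ`, with a torsor over `ℚ̄` which contains the
comparison isomorphism, contains the group `MT(M)`.

The property (*) is equivalent to: for every tensor construction `T` (sums of tensor products of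
copies of `M` and of its dual) all subspaces `W` of `H_B(T)`, such that `W ⊗ ℂ` is given by a
subspace of `H_dR(T)` over `ℚ̄` (the de Rham-Betti subspaces), are the realizations of submotives of
`T`: consider the stabilizer `G` of `W`, and the theorem of Chevalley. So these relations between the
periods, polynomials of arbitrary degree in the periods of `M`, are explained by motives (in the
terminology of André: `Ω^And = Ω^dRB`).

Let `E` be a CM field, and `q ≥ 1`. The abelian variety `B` is of *unitary type* `(E, q)`
(`TypeUnitary`) if there are operators `w σ i` on `H_1(B, ℂ)`, for the complex embeddings `σ` of `E`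
and `1 ≤ i ≤ q`, with the relations of the Clifford algebra `w σ i * w σ' i + w σ' i * w σ i = 1`,
where `σ'` is the complex conjugate of `σ`, while all the other pairs anticommute, such that the
complexified Lie algebra `𝔤 ⊗ ℂ` of the Hodge group of `B` is spanned by the commutators of
`w σ i` and `w σ' j`, and such that the centre of `𝔤` is the space of the elements `x` of `E` with
`x̄ = -x`, where `x` acts by `½ ∑ σ, i, σ(x) w σ i w σ' i`.

The abelian variety `B` is *rigid* (`IsRigid`) if every subalgebra `𝔥` of `𝔤` such that `H_1(B, ℚ)` is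
a semisimple module over `𝔥`, and all endomorphisms of this module commute with `𝔤`, contains the derived
algebra `[𝔤, 𝔤]`.

**Theorem.** Let `B` be an abelian variety over `ℚ̄` such that

(1) `B` is of unitary type `(E, q)`, where `E` is admissible and `q = 1` or `q` is even (`IsUnitary`), or
(2) `B` is rigid, and has direct factors `B_1, …, B_k` (up to isogeny) of unitary types `(E_i, q_i)`,
    with any `q_i ≥ 1` and admissible and independent fields `E_i`, such that the centre of `𝔤` acts
    faithfully on these factors (`CentreFaithful`).

Here a CM field `E` is *admissible* if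
(a) `E / ℚ` is an abelian extension, or (b) `[E : ℚ] = 2 p` with a prime number `p`, or
(c) the conjugate embeddings of `E` are permuted transitively, up to complex conjugation, by a
commutative group of automorphisms, or (d) every nonzero Galois stable space of odd rational functions
on the set of the embeddings contains a nonzero function with values in `{0, 1, -1}` (this is implied
by each of the conditions (a), (b), (c)). The fields `E_i` are *independent* (`Independent`) if every
Galois stable space of families of odd functions on the sets of the embeddings of the `E_i` is the sum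
of its components, that is, if the representations of the Galois group on the odd functions for the
different `E_i` have no constituents in common; for `k = 1` this is no condition.

Let `A` be a direct factor of `B` (up to isogeny), and let `M` be any 1-motive over `ℚ̄` with the abelian
part `A`. Then every algebraic group `G` over `ℚ` with a torsor over `ℚ̄` which contains the
comparison isomorphism of `M` contains `MT(M)`.

There is no condition on the points: the deficient 1-motives of Ribet and Jacquinot are included,
whose Mumford-Tate group is smaller than the relations between the points predict. Nothing is assumed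
about periods: `AbVar` and `AbVarG` are descriptions of abelian varieties over `ℚ̄` by theta functions
(see `Pool/Agent/Y102/AVDefs.lean` and `Pool/Agent/R917/OM/Defs.lean`), and the transcendence theorems
which are used, the theorem of Schneider and Lang and the transcendence of `π`, are proved in this
repository. The group `G` is not assumed to be reductive or connected.

## Which abelian varieties are these? (Explanations, not part of the statement)

* **Complex multiplication by abelian fields.** Let `L` be a CM field which is an abelian extension of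
  `ℚ`, and let `B` be a power of the product of the abelian varieties `A_Φ` with complex multiplication
  by `L` for all the CM types `Φ` of `L`. The Lie algebra of the Hodge group of `B` is the space of the
  `x` in `L` with `x̄ = -x`; it acts on `H_1(B, ℂ)` with the eigenvalues `½ ∑ σ, ± σ(x)`, one for each
  CM type of `L`, and all of them have the same multiplicity. So `H_1(B, ℂ)` is a multiple of the
  exterior algebra, and `B` is of type `(L, 1)`. All abelian varieties whose simple factors have complex
  multiplication by subfields of `L` are direct factors of such a `B`. So (*) holds for *all* 1-motives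
  over `ℚ̄` whose abelian part has complex multiplication by fields which are abelian extensions of `ℚ`.
  Examples are the 1-motives of open Fermat curves relative to finite sets of points, and of their
  quotients `y ^ m = x ^ a (1 - x) ^ b`: the periods are integrals of the first, second and third kind
  of the differentials `x ^ (a/m) (1 - x) ^ (b/m) R(x) dx` between algebraic points, and the periods
  of the curves are the products of values of the gamma function at rational numbers.
* **Several CM fields.** An abelian variety with complex multiplication and the CM type `Φ` is a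
  direct factor of an abelian variety of type `(E, 1)`, if the CM field `E` contains the reflex field of
  `Φ`. For example, let `Φ_i` be CM types of non-Galois quartic CM fields, with pairwise different
  Galois closures. The reflex fields are quartic and satisfy (b), and the odd functions on their
  embeddings are faithful irreducible representations of dimension two of the dihedral groups of order
  eight; so these fields are independent of each other, and of every abelian CM field. So the
  products of (powers of) the corresponding abelian surfaces, of abelian varieties with complex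
  multiplication by abelian fields, and of rigid abelian varieties without centre are factors of
  abelian varieties `B` with (2).
* **Products with rigid abelian varieties.** Let `B = B₁ × C`, where `B₁` has complex multiplication
  and is contained in a sum of factors of unitary type with independent admissible fields, and `C`
  is rigid and the centre of its Lie algebra is zero. Then `B` satisfies (2): see
  `hasType_of_product`, proved below. This is the case if `H_1(C, ℂ)` is a sum of planes `V_i` and
  `𝔤_C ⊗ ℂ` is the sum of the `sl(V_i)` for the different planes: a subalgebra which acts irreducibly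
  on `V_i` has the image `sl(V_i)`, and a proper subalgebra with all these images makes two different
  planes isomorphic. So `C` can be a product of elliptic curves without complex multiplication, of
  abelian varieties with real multiplication by a totally real field of degree equal to the dimension,
  and of abelian varieties with multiplication by a totally indefinite quaternion algebra over a totally
  real field of half this degree. Hence (*) holds for *all* 1-motives over `ℚ̄` whose abelian part is
  isogenous to a product of abelian varieties with complex multiplication by abelian fields, of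
  elliptic curves, and of factors of the Jacobians `J_1(N)` of the modular curves. Also the Kuga-Satake
  varieties of K3 surfaces whose transcendental lattice has multiplication by a totally real field
  `F`, and has rank `r ≥ 6` over `F`, can be factors of `C` (this is a theorem on spin representations
  in the starting library, `determined_of_typeSpin` in `OneMotivesMumfordTate`).
* **Rigid abelian varieties with a centre.** Let `C` be rigid, and let the centres of the endomorphism
  algebras of its simple factors be totally real fields or CM fields which are abelian extensions of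
  `ℚ`. Let `L` be a CM field which is an abelian extension of `ℚ` and contains all these CM fields, and
  let `B₁` be the product of the abelian varieties with complex multiplication by `L` for all the CM
  types of `L`; it is of type `(L, 1)`. Then `B = B₁ × C` satisfies (2): it is rigid
  (`isRigid_of_product`, proved below), and the centre acts faithfully on `B₁`, because the Hodge
  structures `det_F H^1(C')` of the isotypic factors `C'` with the CM fields `F` have rank one over `F` and
  are contained in the tensor category of `H^1(B₁)`. For example `C` can be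
  (i) a simple abelian variety such that the endomorphisms of `H_1(C, ℚ)` which commute with `End(C)` are
  a quaternion algebra over the CM field `F`, with the signature `(1, 1)` at exactly one place of the
  totally real subfield. These are the abelian varieties of the Shimura curves over totally real fields
  (Shimura, Deligne, Carayol). The derived algebra of a subalgebra as in the definition of rigidity has
  the image `sl(2)` at each place, and belongs to a Galois stable partition of the set of the places; the
  noncompact place is a block of it, as `su(1, 1)` and `su(2)` are not isomorphic, and so all blocks are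
  single places;
  (ii) a simple abelian variety such that `F` is an imaginary quadratic field and these endomorphisms are a
  division algebra of prime degree over `F`, with any signature (see also `CentreOfPeriodTorsors`).
* **Kuga-Satake varieties.** Let `X` be a K3 surface over `ℚ̄` whose transcendental lattice `T` has
  multiplication by an admissible CM field `E`, of dimension `q` over `E` with `q = 1` or `q` even. Its
  Kuga-Satake variety `B₁` is of unitary type `(E, q)` (see `MP_57341d_ag/ComplexMultiplicationTorsors`).
  The factors contain for instance all abelian varieties `A` with `End(A) ⊗ ℚ` imaginary quadratic and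
  signature `(1, q - 1)`, for even `q` and general `A`. The product `B = B₁ × C` with `C` as above
  satisfies (2) if `[𝔤, 𝔤] ⊗ ℂ` for `B₁`, a sum of copies of `sl(q)`, and `𝔤_C ⊗ ℂ` have no isomorphic
  simple factors (lemma of Goursat), for example if `q > 2` and `C` is a product of elliptic curves.

Condition (c) holds for general CM fields of every degree `2 k`: it is enough that some automorphism
permutes the `k` pairs of conjugate embeddings cyclically. Condition (d) holds for example for the
reflex fields of the CM types of (d1) the CM fields of degree `2 k` whose Galois group contains all the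
`2 ^ k` changes of signs, and (d2) the fields `K F` with an imaginary quadratic field `K` and a totally
real field `F` of degree `k` with the symmetric group as Galois group. In (d1) the embeddings of the
reflex field are the vectors of signs, and a Galois stable space of odd functions is spanned by products
of signs. In (d2) the odd functions are functions on the `r`-element subsets of a set with `k` elements
(odd for the complement, if `k = 2 r`), and a stable space is a sum of different Specht modules, which
contain the functions `S ↦ ∏ i, (1_{a_i ∈ S} - 1_{b_i ∈ S})`, with values `0`, `1`, `-1`, on the `S`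
that contain exactly one element of each pair `{a_i, b_i}` (and zero elsewhere).

## What was known

For the linear relations between the periods of `M` (and not of its tensor constructions) Q1 is a
theorem of Huber and Wüstholz. The theorem `MP_5d33ca_ag/OneMotivesMumfordTate` of the starting library
is (*) for 1-motives over factors of *determined* abelian varieties, whose Hodge Lie algebra has no
proper subalgebra that is closed under replicas and acts semisimply with the same commutant; its
examples are sums of planes (elliptic curves, maximal real multiplication), spin types, and unitary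
types with an imaginary quadratic field or with a *simple* centre (the odd part of `ℚ ^ Hom(E, ℂ)` is an
irreducible representation of the Galois group). Here it is proved that all abelian varieties with
(1) or (2) are determined (`PT.rch_U`, `PT.crch_fam`, `PT.det_rch`), for example the products of all the
abelian varieties with complex multiplication by an arbitrary abelian CM field, whose Hodge groups
are tori with many factors, and their products with rigid abelian varieties and other factors.

## Proof that `B` is determined

Let `𝔥` be a subalgebra of `𝔤` which is closed under replicas of semisimple elements, and which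
contains the logarithmic derivatives of the periods (`PT.XF`); by the theorem of Schneider and Lang it
acts semisimply on `H_1(B, ℚ)` with the commutant `End(B) ⊗ ℚ`, and so do its images for the factors of
`B`. In the case (1) the derived algebra of `𝔤` is contained in `𝔥` if `q` is even (`PT.der_even'`),
and it is zero if `q = 1` (`CM.comm_one`); in the case (2) it is contained in `𝔥` because `B` is rigid.
Consider a generic element `X` of the centre of `𝔥`, given by `x_i` in `E_i` on the factor `B_i` (`k = 1`
and `B_1 = B` in the case (1)). The families of odd rational functions `c_i` on the sets of the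
embeddings with `∑ i, ∑ σ, c_i(σ) σ(x_i) = 0` form a space `R` which is stable under the automorphisms
of `ℂ`. As the fields are independent, it is the sum of the spaces `R_i` of the relations for the `x_i`.
Let `c` be an element of `R_i` with values in `{0, 1, -1}`. The product of all the operators `w σ j` with
`c(σ) = 1` commutes with the derived algebra, and with `x_i`, because of the relation; so it commutes
with the image of `𝔥`, hence with the centre of the Lie algebra of `B_i`, and this means that the
relation holds for all elements of `E_i`. So `c = 0`, as the embeddings are linearly independent, and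
`R_i = 0` for admissible `E_i` (`CM.no_rel`). Therefore, for every `Y` in the centre of `𝔤` there is an
additive function `f : ℂ → ℂ` which maps the eigenvalues of `X` on `H_1(B, ℂ)` to those of `Y`
(`PT.exists_f2`; it does so on the factors, and then everywhere, by `PT.faithful_step`), and `Y` is in `𝔥`,
which is closed under replicas (`PT.rc_mem`). The rest of the proof is in `Pool.Agent.R917` (see
`OneMotivesMumfordTate`).
-/

open Module Matrix NumberField Pool.Agent.Y102 Pool.Agent.R917.OM Pool.Agent.R917.BX
  Pool.Agent.W516.DR Pool.Agent.H204R3.GP Pool.Agent.R917.DT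

noncomputable section

namespace Pool.Agent.Results.MP_1eadae_ag.ComplexMultiplicationOneMotives

/-! ### The fields -/

section field

variable (E : Type) [Field E]

/-- Every nonzero space `V` of odd rational functions on the set of the complex embeddings of `E` which
is stable under all automorphisms of `ℂ` contains a nonzero function with values in `{0, 1, -1}`. -/
def SignRich : Prop :=
  ∀ V : Submodule ℚ ((E →+* ℂ) → ℚ), V ≠ ⊥ →
    (∀ c ∈ V, ∀ σ, c (ComplexEmbedding.conjugate σ) = -c σ) →
    (∀ (s : ℂ ≃+* ℂ), ∀ c ∈ V, (fun σ => c ((s : ℂ →+* ℂ).comp σ)) ∈ V) →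
    ∃ c ∈ V, c ≠ 0 ∧ ∀ σ, c σ = 0 ∨ c σ = 1 ∨ c σ = -1

/-- There is a group of automorphisms of `ℂ` which acts on the complex embeddings of `E` through a
commutative group, and transitively up to complex conjugation. -/
def AbelianTransitive : Prop :=
  ∃ S : Subgroup (ℂ ≃+* ℂ),
    (∀ s ∈ S, ∀ t ∈ S, ∀ σ : E →+* ℂ,
      (s : ℂ →+* ℂ).comp ((t : ℂ →+* ℂ).comp σ) = (t : ℂ →+* ℂ).comp ((s : ℂ →+* ℂ).comp σ)) ∧
    ∀ σ τ : E →+* ℂ, ∃ s ∈ S,
      τ = (s : ℂ →+* ℂ).comp σ ∨ τ = ComplexEmbedding.conjugate ((s : ℂ →+* ℂ).comp σ)

/-- The field `E` is admissible: it is an abelian extension of `ℚ`, or its degree is twice a prime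
number, or its conjugate embeddings are permuted transitively (up to complex conjugation) by a
commutative group of automorphisms, or it satisfies the condition `SignRich`. -/
def Admissible [NumberField E] : Prop :=
  IsAbelianGalois ℚ E ∨ (∃ p : ℕ, p.Prime ∧ finrank ℚ E = 2 * p) ∨ AbelianTransitive E ∨ SignRich E

end field

section Hyp

variable {g : ℕ} (A : AbVar g)

/-- `φ` is a de Rham-Betti class in `H^1(A) ^ {⊗ r} (w)`, where `r` is the number of the variables: the
form `(2 π i) ^ w φ` is a combination of products of `r` classes of the de Rham cohomology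
`H^1_dR(A / ℚ̄)`, with coefficients in `ℚ̄`. -/
def IsDRB {κ : Type} [Fintype κ] [DecidableEq κ] (w : ℤ)
    (φ : MultilinearMap ℚ (fun _ : κ => A.H1) ℚ) : Prop :=
  ∃ c : (κ → Fin g ⊕ Fin g) → QBar, ∀ v : κ → A.H1,
    (2 * Real.pi * Complex.I) ^ w * (φ v : ℂ) =
      ∑ J, algebraMap QBar ℂ (c J) * ∏ l, A.dR (J l) (v l)

/-- `φ` is a Hodge class: it extends to a real multilinear form on the tangent space which is
invariant under the multiplication by the complex numbers of absolute value `1`. -/
def IsHodge {κ : Type} (φ : MultilinearMap ℚ (fun _ : κ => A.H1) ℚ) : Prop :=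
  ∃ Ψ : MultilinearMap ℝ (fun _ : κ => Fin g → ℂ) ℝ,
    (∀ v : κ → A.H1, Ψ (fun l => A.per (v l)) = φ v) ∧
    ∀ z : ℂ, ‖z‖ = 1 → ∀ u : κ → Fin g → ℂ, Ψ (fun l => z • u l) = Ψ u

/-- The endomorphism `X` annihilates the form `φ` (as a derivation). -/
def Annihilates {κ : Type} [Fintype κ] [DecidableEq κ] (X : Module.End ℚ A.H1)
    (φ : MultilinearMap ℚ (fun _ : κ => A.H1) ℚ) : Prop :=
  ∀ v, ∑ l, φ (Function.update v l (X (v l))) = 0

/-- `X` is in the Lie algebra `𝔤` of the Hodge group: it annihilates all classes in
`H^1(A) ^ {⊗ 2m} (m)` that are Hodge classes and de Rham-Betti classes (by a theorem of Deligne all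
Hodge classes are de Rham-Betti classes). -/
def InLie (X : Module.End ℚ A.H1) : Prop :=
  ∀ (m : ℕ) (φ : MultilinearMap ℚ (fun _ : Fin m × Fin 2 => A.H1) ℚ),
    IsHodge A φ → IsDRB A m φ → Annihilates A X φ

/-- `X` is in the centre of `𝔤`. -/
def InCentre (X : Module.End ℚ A.H1) : Prop := InLie A X ∧ ∀ Y, InLie A Y → Y * X = X * Y

/-- The algebra of the endomorphisms of `H_1(A, ℂ)`, as matrices for the basis of the lattice. -/
abbrev EndC (_ : AbVar g) : Type := Matrix (Fin (2 * g)) (Fin (2 * g)) ℂ

/-- The matrix of the extension of an endomorphism of `H_1(A, ℚ)` to `H_1(A, ℂ)`. -/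
def toC (X : Module.End ℚ A.H1) : EndC A := Matrix.of fun i j => (X (Pi.single j 1) i : ℂ)

/-- The complex Lie algebra `𝔤 ⊗ ℂ`, acting on `H_1(A, ℂ)`. -/
def lieC : Submodule ℂ (EndC A) := Submodule.span ℂ {Y | ∃ X, InLie A X ∧ Y = toC A X}

/-- The abelian variety is of unitary type for the CM field `E` and the rank `n`: the operators
`w σ i` satisfy the relations of a Clifford algebra, `𝔤 ⊗ ℂ` is spanned by the commutators of `w σ i`
and `w σ' j` (where `σ'` is the complex conjugate of `σ`), and the centre of `𝔤` consists of the
operators `½ ∑ σ, i, σ(x) w σ i w σ' i` for the elements `x` of `E` with `x̄ = -x`. -/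
def TypeUnitary (E : Type) [Field E] [NumberField E] [IsCMField E] (n : ℕ) : Prop :=
  ∃ w : (E →+* ℂ) → Fin n → EndC A,
    (∀ σ i τ j, ¬(τ = ComplexEmbedding.conjugate σ ∧ i = j) → w σ i * w τ j = -(w τ j * w σ i)) ∧
    (∀ σ i, w σ i * w (ComplexEmbedding.conjugate σ) i +
      w (ComplexEmbedding.conjugate σ) i * w σ i = 1) ∧
    lieC A = Submodule.span ℂ {Y | ∃ σ i j, Y = w σ i * w (ComplexEmbedding.conjugate σ) j -
      w (ComplexEmbedding.conjugate σ) j * w σ i} ∧
    (∀ X, InCentre A X → ∃ x : E, IsCMField.complexConj E x = -x ∧
      toC A X = (2⁻¹ : ℂ) • ∑ σ, ∑ i, σ x • (w σ i * w (ComplexEmbedding.conjugate σ) i)) ∧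
    ∀ x : E, IsCMField.complexConj E x = -x → ∃ X, InCentre A X ∧
      toC A X = (2⁻¹ : ℂ) • ∑ σ, ∑ i, σ x • (w σ i * w (ComplexEmbedding.conjugate σ) i)

/-! ### Factors -/

/-- `f` is a homomorphism (up to isogeny) from `A` to `B`: it is given by a linear map of the tangent
spaces, and the pull backs of the algebraic differential forms are algebraic. -/
def IsHomomorphism {g' : ℕ} (B : AbVar g') (f : A.H1 →ₗ[ℚ] B.H1) : Prop :=
  (∃ F : (Fin g → ℂ) →ₗ[ℂ] (Fin g' → ℂ), ∀ w, F (A.per w) = B.per (f w)) ∧
    ∃ e : Fin g' ⊕ Fin g' → Fin g ⊕ Fin g → QBar,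
      ∀ i w, B.dR i (f w) = ∑ j, algebraMap QBar ℂ (e i j) * A.dR j w

/-- `A` is a direct factor of `B`, up to isogeny. -/
def IsFactor {g' : ℕ} (B : AbVar g') : Prop :=
  ∃ (f : A.H1 →ₗ[ℚ] B.H1) (p : B.H1 →ₗ[ℚ] A.H1), IsHomomorphism A B f ∧
    IsHomomorphism B A p ∧ ∀ w, p (f w) = w

/-- `𝔥` is a subalgebra of `𝔤`. -/
def IsSubalgebra (𝔥 : Submodule ℚ (Module.End ℚ A.H1)) : Prop :=
  (∀ X ∈ 𝔥, InLie A X) ∧ ∀ X ∈ 𝔥, ∀ Y ∈ 𝔥, X * Y - Y * X ∈ 𝔥

/-- The space `H_1(A, ℚ)` is a semisimple module over `𝔥`. -/
def IsSemisimple (𝔥 : Submodule ℚ (Module.End ℚ A.H1)) : Prop :=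
  ∀ U : Submodule ℚ A.H1, (∀ X ∈ 𝔥, ∀ u ∈ U, X u ∈ U) →
    ∃ U' : Submodule ℚ A.H1, (∀ X ∈ 𝔥, ∀ u ∈ U', X u ∈ U') ∧ IsCompl U U'

/-- All endomorphisms of `H_1(A, ℚ)` which commute with `𝔥` commute with `𝔤`. -/
def SameCommutant (𝔥 : Submodule ℚ (Module.End ℚ A.H1)) : Prop :=
  ∀ P : Module.End ℚ A.H1, (∀ X ∈ 𝔥, X * P = P * X) → ∀ X, InLie A X → X * P = P * X

/-- The abelian variety is *rigid*: every subalgebra `𝔥` of `𝔤` such that `H_1(A, ℚ)` is a semisimple
module over `𝔥`, and all endomorphisms of this module commute with `𝔤`, contains the derived algebra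
`[𝔤, 𝔤]`. -/
def IsRigid : Prop := ∀ 𝔥, IsSubalgebra A 𝔥 → IsSemisimple A 𝔥 → SameCommutant A 𝔥 →
  ∀ X Y, InLie A X → InLie A Y → X * Y - Y * X ∈ 𝔥

/-- A direct factor `B` of `A` (up to isogeny) of unitary type `(E, n)`, for an admissible CM field `E`
and `n ≥ 1`. -/
structure UnitaryFactor where
  /-- the field -/
  E : Type
  [field : Field E]
  [number : NumberField E]
  [cm : IsCMField E]
  /-- the dimension of the factor -/
  g' : ℕ
  /-- the factor -/
  B : AbVar g'
  /-- the rank -/
  n : ℕ
  /-- the inclusion of the factor -/
  f : B.H1 →ₗ[ℚ] A.H1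
  /-- the projection to the factor -/
  p : A.H1 →ₗ[ℚ] B.H1
  admissible : Admissible E
  pos : n ≠ 0
  type : TypeUnitary B E n
  inclusion : IsHomomorphism B A f
  projection : IsHomomorphism A B p
  split : ∀ v, p (f v) = v

attribute [instance] UnitaryFactor.field UnitaryFactor.number UnitaryFactor.cm

/-- The complex embeddings of the field `E` of the factor. -/
def UnitaryFactor.Emb {A : AbVar g} (F : UnitaryFactor A) : Type := F.E →+* ℂ

/-- The complex conjugate of an embedding. -/
def UnitaryFactor.conj {A : AbVar g} (F : UnitaryFactor A) (σ : F.Emb) : F.Emb :=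
  ComplexEmbedding.conjugate (K := F.E) σ

/-- The composition of an embedding with an automorphism of `ℂ`. -/
def UnitaryFactor.act {A : AbVar g} (F : UnitaryFactor A) (s : ℂ ≃+* ℂ) (σ : F.Emb) : F.Emb :=
  RingHom.comp (α := F.E) (s : ℂ →+* ℂ) σ

/-- The families of rational functions on the sets of the complex embeddings of the fields. -/
abbrev Family {k : ℕ} (F : Fin k → UnitaryFactor A) : Type := ∀ i, (F i).Emb → ℚ

/-- All functions in the space `V` of families are odd, and it is stable under all automorphisms
of `ℂ`. -/
def IsStableOdd {k : ℕ} (F : Fin k → UnitaryFactor A) (V : Submodule ℚ (Family A F)) : Prop :=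
  (∀ c ∈ V, ∀ i σ, c i ((F i).conj σ) = -c i σ) ∧
    ∀ s : ℂ ≃+* ℂ, ∀ c ∈ V, (fun i σ => c i ((F i).act s σ)) ∈ V

/-- The space `V` of families is the direct sum of its components. -/
def Splits {k : ℕ} (F : Fin k → UnitaryFactor A) (V : Submodule ℚ (Family A F)) : Prop :=
  ∀ c ∈ V, ∀ i, ∃ c' ∈ V, c' i = c i ∧ ∀ j, j ≠ i → c' j = 0

/-- The fields `E_i` of the factors are independent: every Galois stable space of families of odd
functions on the sets of the embeddings of the `E_i` is the direct sum of its components. (The
representations of the Galois group on the odd functions for different `i` have no constituents in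
common.) -/
def Independent {k : ℕ} (F : Fin k → UnitaryFactor A) : Prop :=
  ∀ V : Submodule ℚ (Family A F), IsStableOdd A F V → Splits A F V

/-- The centre of `𝔤` acts faithfully on the factors: an element of the centre which acts by zero on the
homology of all the factors is zero. -/
def CentreFaithful {k : ℕ} (F : Fin k → UnitaryFactor A) : Prop :=
  ∀ X, InCentre A X → (∀ i v, (F i).p (X ((F i).f v)) = 0) → X = 0

/-- The abelian variety `A` is of unitary type `(E, n)`, with `n = 1` or `n` even, for an admissible CM
field `E`. -/
def IsUnitary : Prop := ∃ (E : Type) (_ : Field E) (_ : NumberField E) (_ : IsCMField E) (n : ℕ),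
  Admissible E ∧ (n = 1 ∨ (Even n ∧ n ≠ 0)) ∧ TypeUnitary A E n

/-- The abelian variety `A` is of unitary type `(E, n)`, with `n = 1` or `n` even and `E` admissible; or
it is rigid, and the centre of `𝔤` acts faithfully on independent factors of unitary type. -/
def HasType : Prop :=
  IsUnitary A ∨
    (IsRigid A ∧ ∃ (k : ℕ) (F : Fin k → UnitaryFactor A), Independent A F ∧ CentreFaithful A F)

theorem inLie_iff {X : Module.End ℚ A.H1} : InLie A X ↔ X ∈ A.NA :=
  forall_congr' fun _ => forall_congr' fun φ => forall_congr' fun _ =>
    (imp_congr_left (L0h12.CM.drb_iff (A := A) (φ := φ)))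

theorem inCentre_iff {X : Module.End ℚ A.H1} : InCentre A X ↔ X ∈ A.CN :=
  ⟨fun h => ⟨(inLie_iff A).1 h.1, fun Y hY => h.2 Y ((inLie_iff A).2 hY)⟩,
    fun h => ⟨(inLie_iff A).2 h.1, fun Y hY => h.2 Y ((inLie_iff A).1 hY)⟩⟩

theorem exists_unit {E : Type} [Field E] [NumberField E] [IsCMField E] {n : ℕ}
    (hA : TypeUnitary A E n) : ∃ ω : (E →+* ℂ) → Fin n → Module.End ℂ (TensorProduct ℚ ℂ A.H1),
      L0h12.CM.IsUnit A ω := by
  obtain ⟨w, h1, h2, h3, h4, h5⟩ := hA
  refine ⟨_, L0h12.PT.isUnit_of_matrix (w := w) ⟨h1, h2⟩ ?_
    (fun X hX => h4 X ((inCentre_iff A).2 hX)) fun x hx => ?_⟩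
  · refine Eq.trans ?_ (h3 : lieC A = L0h12.CM.gls w)
    unfold lieC
    simp only [inLie_iff]
    rfl
  · obtain ⟨X, hX, hX'⟩ := h5 x hx
    exact ⟨X, (inCentre_iff A).1 hX, hX'⟩

theorem rigid_iff : IsRigid A ↔ L0h12.PT.DRigid A :=
  ⟨fun hA 𝔥 h X hX Y hY => hA 𝔥 ⟨fun Z hZ => (inLie_iff A).2 (h.le hZ), h.br⟩ h.semi
    (fun P hP Z hZ => h.comm P hP Z ((inLie_iff A).1 hZ)) X Y ((inLie_iff A).2 hX)
      ((inLie_iff A).2 hY),
    fun hA 𝔥 h1 h3 h4 X Y hX hY => hA 𝔥 ⟨fun Z hZ => (inLie_iff A).1 (h1.1 Z hZ), h1.2, h3,
      fun P hP Z hZ => h4 P hP Z ((inLie_iff A).2 hZ)⟩ X ((inLie_iff A).1 hX) Y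
        ((inLie_iff A).1 hY)⟩

theorem signRich_of {E : Type} [Field E] [NumberField E] [IsCMField E] (hE : Admissible E) :
    L0h12.CM.SignRich E := by
  rcases hE with h | ⟨p, hp, h⟩ | h | h
  · exact L0h12.CM.signRich_of_abelianTransitive L0h12.CM.abelianTransitive_of_abelian
  · exact L0h12.CM.signRich_of_abelianTransitive (L0h12.CM.abelianTransitive_of_prime hp h)
  · exact L0h12.CM.signRich_of_abelianTransitive h
  · exact h

theorem rch_of (hA : HasType A) : L0h12.PT.Rch A := by
  rcases hA with ⟨E, i1, i2, i3, n, hE, hn, hU⟩ | ⟨hr, k, F, hF, hc⟩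
  · obtain ⟨ω, hω⟩ := exists_unit A hU
    exact L0h12.PT.rch_U (signRich_of hE) hn hω
  · choose ω hω using fun i => exists_unit (F i).B (F i).type
    refine (L0h12.PT.crch_fam (ι := Fin k) (fun i => ⟨(F i).E, (F i).g', (F i).B, (F i).n, ω i,
      (F i).f, (F i).p, ⟨⟨(F i).inclusion.1, (F i).inclusion.2⟩,
        ⟨(F i).projection.1, (F i).projection.2⟩, (F i).split⟩, signRich_of (F i).admissible,
      (F i).pos, hω i⟩) (fun V h1 h2 => hF V ⟨h1, h2⟩)
      fun W hW h0 => hc W ((inCentre_iff A).2 hW) fun i v =>
        LinearMap.congr_fun (h0 i) v).rch ((rigid_iff A).1 hr)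

/-- The product `A = B × C` is rigid, if `B` has complex multiplication (that is, its Lie algebra is
commutative) and `C` is rigid. The centre of the Lie algebra of `C` can be arbitrary. -/
theorem isRigid_of_product {g₁ g₂ : ℕ} {B : AbVar g₁} {C : AbVar g₂}
    (hB : ∀ X Y, InLie B X → InLie B Y → X * Y = Y * X) (hC : IsRigid C)
    {i : B.H1 →ₗ[ℚ] A.H1} {p : A.H1 →ₗ[ℚ] B.H1}
    {j : C.H1 →ₗ[ℚ] A.H1} {q : A.H1 →ₗ[ℚ] C.H1} (hi : IsHomomorphism B A i)
    (hp : IsHomomorphism A B p) (hpi : ∀ v, p (i v) = v) (hj : IsHomomorphism C A j)
    (hq : IsHomomorphism A C q) (hqj : ∀ v, q (j v) = v) (hs : ∀ v, i (p v) + j (q v) = v) :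
    IsRigid A := by
  have h : R917.DT.Fac B A i p := ⟨⟨hi.1, hi.2⟩, ⟨hp.1, hp.2⟩, hpi⟩
  have h' : R917.DT.Fac C A j q := ⟨⟨hj.1, hj.2⟩, ⟨hq.1, hq.2⟩, hqj⟩
  exact (rigid_iff A).2 (L0h12.PT.dRigid_cm h h' hs
    (fun X hX Y hY => hB X Y ((inLie_iff B).2 hX) ((inLie_iff B).2 hY)) ((rigid_iff C).1 hC))

/-- The abelian variety `A = B × C` is included, if `B` has complex multiplication (that is, its Lie
algebra is commutative), `C` is rigid and the centre of its Lie algebra is zero (for example a
product of elliptic curves without complex multiplication), and there are independent factors of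
unitary type such that `B` is contained in their sum. -/
theorem hasType_of_product {g₁ g₂ : ℕ} {B : AbVar g₁} {C : AbVar g₂}
    (hB : ∀ X Y, InLie B X → InLie B Y → X * Y = Y * X) (hC : IsRigid C)
    (hC0 : ∀ X, InCentre C X → X = 0) {i : B.H1 →ₗ[ℚ] A.H1} {p : A.H1 →ₗ[ℚ] B.H1}
    {j : C.H1 →ₗ[ℚ] A.H1} {q : A.H1 →ₗ[ℚ] C.H1} (hi : IsHomomorphism B A i)
    (hp : IsHomomorphism A B p) (hpi : ∀ v, p (i v) = v) (hj : IsHomomorphism C A j)
    (hq : IsHomomorphism A C q) (hqj : ∀ v, q (j v) = v) (hs : ∀ v, i (p v) + j (q v) = v)
    {k : ℕ} (F : Fin k → UnitaryFactor A) (hF : Independent A F)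
    (hFB : ∀ v, (∀ l, (F l).p v = 0) → p v = 0) : HasType A := by
  have h : R917.DT.Fac B A i p := ⟨⟨hi.1, hi.2⟩, ⟨hp.1, hp.2⟩, hpi⟩
  have h' : R917.DT.Fac C A j q := ⟨⟨hj.1, hj.2⟩, ⟨hq.1, hq.2⟩, hqj⟩
  have hR : L0h12.PT.Rigid C := by
    refine ⟨fun X hX => hC0 X ((inCentre_iff C).2 hX), fun 𝔥 h𝔥 X hX => ?_⟩
    obtain ⟨Z, hZ, δ, hδ, hXe, hcomm⟩ := Pool.Agent.N208.AM.full_NA.dec hX
    have hZ0 : Z = 0 := hC0 Z ((inCentre_iff C).2 ⟨hZ, fun Y hY => (hcomm Y hY).symm⟩)
    rw [hXe, hZ0, zero_add]
    have hder : Pool.Agent.Y102.der C.NA ≤ 𝔥 := by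
      unfold Pool.Agent.Y102.der
      rw [Submodule.span_le]
      rintro _ ⟨X, hX, Y, hY, rfl⟩
      exact (rigid_iff C).1 hC 𝔥 h𝔥 X hX Y hY
    exact hder hδ
  exact Or.inr ⟨isRigid_of_product A hB hC hi hp hpi hj hq hqj hs, k, F, hF, fun X hX h0 =>
    L0h12.PT.faithful_of_from (fun l => (F l).f) (fun l => (F l).p)
      (fun l => ⟨⟨(F l).inclusion.1, (F l).inclusion.2⟩, ⟨(F l).projection.1, (F l).projection.2⟩,
        (F l).split⟩) (fun W hW v hv => L0h12.PT.cen_prod h h' hs hR W hW v (hFB v hv)) X
      ((inCentre_iff A).1 hX) h0⟩

end Hyp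

section Motives

variable {g n s : ℕ} (A : AbVarG g)

/-! ### 1-motives and their periods -/

/-- The basis of the Betti realization of the 1-motive: the basis `λ_j` of the lattice of `A`, the
basis `γ_l` of `H_1(G_m^s)`, the basis `e_i` of `ℤ^n`. -/
abbrev Betti (g n s : ℕ) : Type := Fin (2 * g) ⊕ (Fin s ⊕ Fin n)

/-- The basis of the de Rham cohomology of the 1-motive: the invariant differentials `d z_k` and the
differentials of the second kind `d h_k` on `A`, the invariant differentials of the third kind `ω_l`
on the semiabelian variety, and a basis for `ℤ^n`. -/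
abbrev DeRham (g n s : ℕ) : Type := (Fin g ⊕ Fin g) ⊕ (Fin s ⊕ Fin n)

/-- The integral of the second kind `h_k = ∂ k (log θ 0)`, with the value zero at the origin. -/
def second (k : Fin g) (z : Fin g → ℂ) : ℂ := pd k (A.θ 0) z / A.θ 0 z - pd k (A.θ 0) 0

/-- The comparison isomorphism of the 1-motive. The rows are the Betti side. -/
def periodMatrix (u : Fin n → Fin g → ℂ) (v : Fin s → Fin g → ℂ) (ℓ : Fin n → Fin s → ℂ) :
    Matrix (Betti g n s) (DeRham g n s) ℂ := Matrix.of fun r c =>
  match r, c with
  | Sum.inl j, Sum.inl (Sum.inl k) => A.lam j k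
  | Sum.inl j, Sum.inl (Sum.inr k) => A.η j k
  | Sum.inl j, Sum.inr (Sum.inl l) => ∑ k, (second A k (v l) * A.lam j k - v l k * A.η j k)
  | Sum.inr (Sum.inl l), Sum.inr (Sum.inl l') => if l = l' then 2 * Real.pi * Complex.I else 0
  | Sum.inr (Sum.inr i), Sum.inl (Sum.inl k) => u i k
  | Sum.inr (Sum.inr i), Sum.inl (Sum.inr k) => second A k (u i)
  | Sum.inr (Sum.inr i), Sum.inr (Sum.inl l) => ℓ i l
  | Sum.inr (Sum.inr i), Sum.inr (Sum.inr i') => if i = i' then 1 else 0
  | _, _ => 0

/-- The data `u_i, v_l, ℓ_il` of a 1-motive over the algebraic numbers: the points of `A` and of the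
dual abelian variety are algebraic, and so are the points of the extension, in terms of the
trivialization by the function `θ(z - v) / (θ(z) θ(-v)) · exp(∑ k, h_k(v) z_k)`. The vectors are
chosen outside of the divisor of the theta function. -/
structure IsOneMotive (u : Fin n → Fin g → ℂ) (v : Fin s → Fin g → ℂ) (ℓ : Fin n → Fin s → ℂ) :
    Prop where
  point : ∀ i, IsPoint A.toAbVar (u i)
  dual : ∀ l, IsPoint A.toAbVar (v l)
  neg : ∀ l, IsPoint A.toAbVar (-v l)
  sub : ∀ i l, IsPoint A.toAbVar (u i - v l)
  log : ∀ i l, ∃ q : ℂ, IsAlgebraic ℚ q ∧ Complex.exp (ℓ i l) =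
    q * (A.θ 0 (u i - v l) / (A.θ 0 (u i) * A.θ 0 (-v l))) *
      Complex.exp (∑ k, second A k (v l) * u i k)

/-! ### Algebraic groups which contain the periods -/

/-- A subgroup of `GL_R(ℂ)` defined by polynomials with rational coefficients. -/
def IsAlgebraicSubgroup {R : Type} [Fintype R] [DecidableEq R] (G : Subgroup (GL R ℂ)) : Prop :=
  ∃ I : Set (MvPolynomial (R × R) ℚ), ∀ x : GL R ℂ, x ∈ G ↔
    ∀ p ∈ I, MvPolynomial.aeval (fun b : R × R => (x : Matrix R R ℂ) b.1 b.2) p = 0

/-- The comparison isomorphism `c` is an element of a torsor `G · T⁻¹` of `G`, defined over the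
algebraic numbers: `T` is a matrix with algebraic entries (an isomorphism between the Betti side and
the de Rham side) such that `c T ∈ G`. -/
def ContainsPeriods (u : Fin n → Fin g → ℂ) (v : Fin s → Fin g → ℂ) (ℓ : Fin n → Fin s → ℂ)
    (G : Subgroup (GL (Betti g n s) ℂ)) : Prop :=
  ∃ T : Matrix (DeRham g n s) (Betti g n s) ℂ, (∀ i j, IsAlgebraic ℚ (T i j)) ∧
    ∃ x ∈ G, (x : Matrix (Betti g n s) (Betti g n s) ℂ) = periodMatrix A u v ℓ * T

/-! ### The mixed Hodge structure and the Mumford-Tate group -/

/-- The Hodge filtration: the vectors of `H_1(M, ℂ)` (in terms of their coordinates) on which the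
invariant differentials of the semiabelian variety vanish. -/
def F0 (u : Fin n → Fin g → ℂ) (v : Fin s → Fin g → ℂ) (ℓ : Fin n → Fin s → ℂ)
    (x : Betti g n s → ℂ) : Prop :=
  (∀ k, ∑ r, x r * periodMatrix A u v ℓ r (Sum.inl (Sum.inl k)) = 0) ∧
    ∀ l, ∑ r, x r * periodMatrix A u v ℓ r (Sum.inr (Sum.inl l)) = 0

/-- The part of weight `≤ -1` of the homology, the homology of the semiabelian variety. -/
def W1 (x : Betti g n s → ℂ) : Prop := ∀ i, x (Sum.inr (Sum.inr i)) = 0

/-- The part of weight `≤ -2` of the homology, the homology of the torus. -/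
def W2 (x : Betti g n s → ℂ) : Prop :=
  (∀ j, x (Sum.inl j) = 0) ∧ ∀ i, x (Sum.inr (Sum.inr i)) = 0

/-- The complex conjugate vector. -/
def bar (x : Betti g n s → ℂ) : Betti g n s → ℂ := fun r => (starRingEnd ℂ) (x r)

/-- The matrix `M` gives the action of the element `z` of the Deligne torus on the homology of the
1-motive (vectors are rows): it acts by `1` on `I^{0,0} = F^0 ∩ (F̄^0 + W_{-2})`, by `z̄` on
`I^{0,-1} = F^0 ∩ W_{-1}`, by `z` on its complex conjugate `I^{-1,0}` and by `z z̄` on
`I^{-1,-1} = W_{-2}`. -/
structure IsDeligne (u : Fin n → Fin g → ℂ) (v : Fin s → Fin g → ℂ) (ℓ : Fin n → Fin s → ℂ)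
    (z : ℂ) (M : Matrix (Betti g n s) (Betti g n s) ℂ) : Prop where
  zero_zero : ∀ x y w, F0 A u v ℓ x → F0 A u v ℓ y → W2 w → x = bar y + w → x ᵥ* M = x
  zero_neg : ∀ x, F0 A u v ℓ x → W1 x → x ᵥ* M = (starRingEnd ℂ) z • x
  neg_zero : ∀ x, F0 A u v ℓ x → W1 x → bar x ᵥ* M = z • bar x
  neg_neg : ∀ x, W2 x → x ᵥ* M = (z * (starRingEnd ℂ) z) • x

/-- The Mumford-Tate group of the 1-motive: the smallest algebraic group over `ℚ` which contains the
image of the Deligne torus. -/
def mumfordTate (u : Fin n → Fin g → ℂ) (v : Fin s → Fin g → ℂ) (ℓ : Fin n → Fin s → ℂ) :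
    Subgroup (GL (Betti g n s) ℂ) :=
  sInf {G | IsAlgebraicSubgroup G ∧ ∀ z : ℂ, z ≠ 0 → ∃ x ∈ G,
    IsDeligne A u v ℓ z (x : Matrix (Betti g n s) (Betti g n s) ℂ)}

/-! ### Proofs -/

/-- the data of the 1-motive -/
def dat (u : Fin n → Fin g → ℂ) (v : Fin s → Fin g → ℂ) (ℓ : Fin n → Fin s → ℂ) : Dt g n s where
  P := Sum.elim (fun i => Sum.elim (u i) (fun k => second A k (u i)))
    (fun l => Sum.elim (v l) (fun k => second A k (v l)))
  ℓ := ℓ

theorem per_eb (j : Fin (2 * g)) (k : Fin g) : A.dR (Sum.inl k) (eb A.toAbVar j) = A.lam j k := by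
  change A.per (Pi.single j 1) k = _
  unfold AbVar.per
  rw [Fintype.linearCombination_apply_single, one_smul]

theorem eta_eb (j : Fin (2 * g)) (k : Fin g) : A.dR (Sum.inr k) (eb A.toAbVar j) = A.η j k := by
  change A.eta (Pi.single j 1) k = _
  unfold AbVar.eta
  rw [Fintype.linearCombination_apply_single, one_smul]

theorem periodMatrix_eq (u : Fin n → Fin g → ℂ) (v : Fin s → Fin g → ℂ)
    (ℓ : Fin n → Fin s → ℂ) : periodMatrix A u v ℓ = pmat A.toAbVar (dat A u v ℓ) := by
  ext r c
  rcases r with j | l | i <;> rcases c with (k | k) | l' | i' <;>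
    simp [periodMatrix, pmat, dat, per_eb, eta_eb, thd, tau]

end Motives

/-- **Theorem.** Let `B` be an abelian variety over `ℚ̄` of unitary type `(E, q)` with `q = 1` or `q`
even and admissible `E`, or a rigid abelian variety such that the centre of `𝔤` acts faithfully on
independent factors of unitary type. Let `A` be a direct factor of `B` up to isogeny, and let `M` be a 1-motive
over `ℚ̄` with the abelian part `A`. Then every algebraic group `G` over `ℚ`, with a torsor over `ℚ̄`
which contains the comparison isomorphism of `M`, contains the Mumford-Tate group of `M`. -/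
theorem result (g' : ℕ) (B : AbVar g') (hB : HasType B) (g n s : ℕ)
    (A : AbVarG g) (hA : IsFactor A.toAbVar B) (u : Fin n → Fin g → ℂ) (v : Fin s → Fin g → ℂ)
    (ℓ : Fin n → Fin s → ℂ) (hM : IsOneMotive A u v ℓ)
    (G : Subgroup (GL (Betti g n s) ℂ)) (hG : IsAlgebraicSubgroup G)
    (hP : ContainsPeriods A u v ℓ G) : mumfordTate A u v ℓ ≤ G := by
  have hR := rch_of B hB
  obtain ⟨T, hT, x, hx, hxT⟩ := hP
  rw [periodMatrix_eq] at hxT
  have hpt := ptM_of hG hT hx hxT
  obtain ⟨K₁, hK₁, hrat⟩ := exists_rat_mult A (pt (dat A u v ℓ)) (by
    rintro (i | l)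
    · exact Or.inl (hM.point i)
    · exact Or.inl (hM.dual l))
  obtain ⟨f, p, hf, hp, hpf⟩ := hA
  obtain ⟨h1, h2⟩ := hodge_stab6 hpt ⟨hM.point, hM.neg, hM.sub, hM.log⟩ hrat
    (L0h12.PT.detJ_rch (f := f) (p := p) ⟨⟨hf.1, hf.2⟩, ⟨hp.1, hp.2⟩, hpf⟩ hR)
  refine sInf_le ⟨hG, fun z hz => ?_⟩
  obtain ⟨M, ⟨y, hy, hyM⟩, hM⟩ := hodge_exp hpt.grp h1 h2 z
  have hlog : ((Complex.log z).re : ℂ) + (Complex.log z).im * Complex.I = Complex.log z :=
    Complex.re_add_im _
  have hexp := Complex.exp_log hz
  have hconj : Complex.exp ((starRingEnd ℂ) (Complex.log z)) = (starRingEnd ℂ) z := by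
    rw [Complex.exp_conj, hexp]
  have hlog' : ((Complex.log z).re : ℂ) - (Complex.log z).im * Complex.I =
      (starRingEnd ℂ) (Complex.log z) := by
    apply Complex.ext <;> simp
  rw [← hyM] at hM
  have hF : ∀ a, F0 A u v ℓ a → (∀ k, i1 A.toAbVar (dat A u v ℓ) a k = 0) ∧
      ∀ l, i3 A.toAbVar (dat A u v ℓ) a l = 0 := by
    rintro a ⟨ha1, ha2⟩
    rw [periodMatrix_eq] at ha1 ha2
    exact ⟨ha1, ha2⟩
  refine ⟨y, hy, ⟨fun a b w ha hb hw hab => ?_, fun a ha ha1 => ?_, fun a ha ha1 => ?_,
    fun a ha => ?_⟩⟩
  · obtain ⟨e1, e2⟩ := eig_0 (A := A.toAbVar) (d := dat A u v ℓ) (v := a) (f := b)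
      (fun j => by rw [hab, Pi.add_apply, hw.1, add_zero]; rfl)
      (fun i => by rw [hab, Pi.add_apply, hw.2, add_zero]; rfl) (hF a ha).1 (hF a ha).2 (hF b hb).1
    have h3 := hM a 0 0 e1 e2
    rwa [mul_zero, mul_zero, add_zero, Complex.exp_zero, one_smul] at h3
  · obtain ⟨e1, e2⟩ := eig_m (A := A.toAbVar) (d := dat A u v ℓ) (v := a) ha1 (hF a ha).1
      (hF a ha).2
    have h3 := hM a 1 (-Complex.I) (by rw [one_smul]; exact e1) e2
    rw [h3, ← hconj, ← hlog']
    congr 2
    ring
  · obtain ⟨e1, e2⟩ := eig_p (A := A.toAbVar) (d := dat A u v ℓ) (v := bar a) (w := a)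
      (fun r => rfl) ha1 (hF a ha).1 (hF a ha).2
    have h3 := hM (bar a) 1 Complex.I (by rw [one_smul]; exact e1) e2
    rw [h3, mul_one, hlog, hexp]
  · obtain ⟨e1, e2⟩ := eig_t (A := A.toAbVar) (d := dat A u v ℓ) (v := a) ha.1 ha.2
    have h3 := hM a 2 0 e1 e2
    rw [h3]
    congr 1
    rw [mul_zero, add_zero]
    have h4 : z * (starRingEnd ℂ) z =
        Complex.exp (Complex.log z) * Complex.exp ((starRingEnd ℂ) (Complex.log z)) := by
      rw [hexp, hconj]
    rw [h4, ← Complex.exp_add]
    congr 1
    linear_combination hlog + hlog'

end Pool.Agent.Results.MP_1eadae_ag.ComplexMultiplicationOneMotives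

end
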