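import Mathlib
import Pool.Agent.L0h53.RA.Rank

/-!
# Matrices of linear forms in logarithms with coefficients in a number field are far from matrices of
# less than half their structural rank

Let `E` be a number field of degree `e`, with an embedding `ψ` in `ℂ`, and let
`M(X) = M₀ + X_1 M_1 + ... + X_n M_n`, where the `M_i` are `d × l` matrices with entries in `E`. The
structural rank of `M(X)` is its rank over the field of rational functions. The formal periods of the
Kummer motives `H^1(G_m, {1, z})` of multiplicatively independent algebraic numbers `z_1, ..., z_n`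
(formal logarithms) are algebraically independent; so the structural rank is the rank of the matrix
`M` of formal periods, and the conjecture of the problem says that the evaluation map does not
change it. By a theorem of Roy, for formal logarithms this is equivalent to the injectivity of the
evaluation map (Schanuel's conjecture for logarithms). The theorem of Waldschmidt and Roy says that
the rank of the matrix `M(λ)` of periods is at least half of the structural rank.

We prove a version of this theorem which is quantitative and uniform in the logarithms. Let the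
structural rank be at least `s`, let `2 r < s`, and let `D ∈ ℕ`, `c ≥ 0`.

(1) Let `M₀ = 0` and `κ > e s / (s - 2 r)`. There is `C > 0`, depending on `M`, `s`, `r`, `D`, `c`,
`κ` only, such that for every `H ≥ 3`, every number field `K ⊆ ℂ` of degree at most `D`, all
multiplicatively independent elements `z_1, ..., z_n` of `K` of height at most `H`, and all
logarithms `λ_i` of the `z_i` with `|λ_i| ≤ c log H`: every complex matrix `N` of rank at most `r`
satisfies `max |M(λ)_jp - N_jp| > exp (-C (log H) ^ κ)`.

(2) The same is true for all `M₀` if `κ > (e + 1) s / (s - 2 r)`.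

For `s = 1` and `r = 0` this is a lower bound for linear forms in logarithms with coefficients in
`E`, with the exponent (up to `ε`) of the theorem of Baker for the `e` (or `e + 1`) logarithms which
are the coordinates of the linear form with respect to a basis of `E`.

Here `z` has height at most `H` if `z` and `1 / z` have denominators at most `H` and all their
conjugates are at most `H` in absolute value.

Method: the transcendence method for points of `G_m ^ (s e)` (resp. `G_a ^ s × G_m ^ (s e)`) which
are close to points of the sum of an algebraic subspace, defined by a basis of `E`, and of an analytic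
subspace of dimension `r`, with a zero estimate; the obstruction subgroup gives a block of zeros of
`M(X)`, which is too large.
-/

set_option autoImplicit false

open MvPolynomial

namespace Pool.Agent.Results.MP_1eadae_ag.StructuralRankNumberField

/-- `a` has a denominator at most `H`, and all its conjugates are at most `H` in absolute value. -/
def HtLe {K : Type} [Field K] (H : ℝ) (a : K) : Prop :=
  (∃ q : ℕ, 0 < q ∧ (q : ℝ) ≤ H ∧ IsIntegral ℤ ((q : K) * a)) ∧ ∀ τ : K →+* ℂ, ‖τ a‖ ≤ H

/-- The numbers `z i` are nonzero elements of `K`, the numbers `z i` and `1 / z i` are of height at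
most `H`, `lam i` is a logarithm of `φ (z i)`, and `|lam i| ≤ c log H`. -/
structure IsLogs {K : Type} [Field K] {n : ℕ} (H c : ℝ) (φ : K →+* ℂ) (z : Fin n → K)
    (lam : Fin n → ℂ) : Prop where
  ne : ∀ i, z i ≠ 0
  ht : ∀ i, HtLe H (z i)
  ht_inv : ∀ i, HtLe H (z i)⁻¹
  log : ∀ i, Complex.exp (lam i) = φ (z i)
  size : ∀ i, ‖lam i‖ ≤ c * Real.log H

/-- The numbers `z i` are multiplicatively independent. -/
def MulIndep {K : Type} [Field K] {n : ℕ} (z : Fin n → K) : Prop :=
  ∀ t : Fin n → ℤ, ∏ i, z i ^ t i = 1 → t = 0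

/-- the matrix `M₀ + X_1 M_1 + ... + X_n M_n` of affine linear forms -/
noncomputable def form {E : Type} [Field E] {n d l : ℕ} (M₀ : Matrix (Fin d) (Fin l) E)
    (M : Fin n → Matrix (Fin d) (Fin l) E) : Matrix (Fin d) (Fin l) (MvPolynomial (Fin n) E) :=
  Matrix.of fun j p => C (M₀ j p) + ∑ i, C (M i j p) * X i

/-- The structural rank of `M₀ + X_1 M_1 + ... + X_n M_n` is at least `s`: some minor of size `s` is
not the zero polynomial. -/
def StructuralRankGE {E : Type} [Field E] {n d l : ℕ} (s : ℕ) (M₀ : Matrix (Fin d) (Fin l) E)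
    (M : Fin n → Matrix (Fin d) (Fin l) E) : Prop :=
  ∃ (f : Fin s → Fin d) (g : Fin s → Fin l), ((form M₀ M).submatrix f g).det ≠ 0

/-- Uniformly in the number fields `K` of degree at most `D` and in the logarithms, the matrices
`M₀ + λ_1 M_1 + ... + λ_n M_n` are farther than `exp (-C (log H) ^ κ)` from all matrices of rank at
most `r`. -/
def Far {E : Type} [Field E] (ψ : E →+* ℂ) {n d l : ℕ} (M₀ : Matrix (Fin d) (Fin l) E)
    (M : Fin n → Matrix (Fin d) (Fin l) E) (r D : ℕ) (c κ : ℝ) : Prop :=
  ∃ C : ℝ, 0 < C ∧ ∀ H : ℝ, 3 ≤ H →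
    ∀ (K : Type) [Field K] [NumberField K], Module.finrank ℚ K ≤ D →
    ∀ (φ : K →+* ℂ) (z : Fin n → K) (lam : Fin n → ℂ), IsLogs H c φ z lam → MulIndep z →
    ∀ N : Matrix (Fin d) (Fin l) ℂ, N.rank ≤ r →
      ∃ j p, Real.exp (-(C * Real.log H ^ κ)) <
        ‖ψ (M₀ j p) + ∑ i, ψ (M i j p) * lam i - N j p‖

/-- the rank of a submatrix -/
theorem rank_sub {d l s : ℕ} (N : Matrix (Fin d) (Fin l) ℂ) (f : Fin s → Fin d)
    (g : Fin s → Fin l) : (N.submatrix f g).rank ≤ N.rank := by
  have h : N.submatrix f g = ((1 : Matrix (Fin d) (Fin d) ℂ).submatrix f id) * N *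
      ((1 : Matrix (Fin l) (Fin l) ℂ).submatrix id g) := by
    ext a b
    simp [Matrix.mul_apply, Matrix.one_apply]
  rw [h]
  exact (Matrix.rank_mul_le_left _ _).trans (Matrix.rank_mul_le_right _ _)

theorem result (E : Type) [Field E] [NumberField E] (ψ : E →+* ℂ) (n d l r s D : ℕ)
    (h : 2 * r < s) (M₀ : Matrix (Fin d) (Fin l) E) (M : Fin n → Matrix (Fin d) (Fin l) E)
    (hs : StructuralRankGE s M₀ M) (c : ℝ) (hc : 0 ≤ c) :
    (M₀ = 0 → ∀ κ : ℝ, (Module.finrank ℚ E : ℝ) * (s / (s - 2 * r)) < κ → Far ψ M₀ M r D c κ) ∧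
    ∀ κ : ℝ, ((Module.finrank ℚ E : ℝ) + 1) * (s / (s - 2 * r)) < κ → Far ψ M₀ M r D c κ := by
  obtain ⟨f, g, hfg⟩ := hs
  have hht : ∀ (K : Type) [Field K] [NumberField K] (H : ℝ) (a : K), HtLe H a →
      Pool.Agent.L0h53.RK.Ht H a := fun K _ _ H a ha => ⟨ha.1, fun τ => ha.2 (τ : K →+* ℂ)⟩
  have hs0 : 0 < s := by omega
  have hsR : (0 : ℝ) < s := by exact_mod_cast hs0
  have hsr : (0 : ℝ) < s - 2 * r := by
    have : ((2 * r : ℕ) : ℝ) < s := by exact_mod_cast h
    push_cast at this
    linarith
  have h' : r * (s + s) < s * s := by nlinarith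
  have hbal : Pool.Agent.L0h53.RA.Bal ψ (fun j p => M₀ (f j) (g p))
      (fun i j p => M i (f j) (g p)) :=
    Pool.Agent.L0h53.RA.bal_square ψ.toRatAlgHom _ _ (by
      convert hfg using 2
      rfl)
  have hfrac : ∀ x : ℝ, x * (s * s) / (s * s - r * (s + s)) = x * (s / (s - 2 * r)) := by
    intro x
    have h1 : (s : ℝ) * s - r * (s + s) = s * (s - 2 * r) := by ring
    rw [h1]
    field_simp
  have key : ∀ κ : ℝ, Pool.Agent.L0h53.RA.Conc ψ.toRatAlgHom (fun j p => M₀ (f j) (g p))
      (fun i j p => M i (f j) (g p)) r D c κ → Far ψ M₀ M r D c κ := by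
    rintro κ ⟨C, hC, hmain⟩
    refine ⟨C, hC, fun H hH K _ _ hD φ z lam hz hind N hN => ?_⟩
    by_contra hcon
    push Not at hcon
    obtain ⟨t, ht, hrel⟩ := hmain H hH K φ.toRatAlgHom z lam (N.submatrix f g) hD hz.ne
      (fun i => hht K H _ (hz.ht i)) (fun i => hht K H _ (hz.ht_inv i)) (fun i => hz.log i) hz.size
      ((rank_sub N f g).trans hN) (fun j p => hcon (f j) (g p))
    exact ht (hind t hrel)
  constructor
  · intro h0 κ hκ
    subst h0
    apply key
    refine Pool.Agent.L0h53.RA.bal_pure ψ.toRatAlgHom n s s r D h' _ hbal κ ?_ c hc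
    rw [hfrac]
    exact hκ
  · intro κ hκ
    apply key
    refine Pool.Agent.L0h53.RA.bal_strong ψ.toRatAlgHom n s s r D h' _ _ hbal κ ?_ c hc
    rw [hfrac]
    exact hκ

end Pool.Agent.Results.MP_1eadae_ag.StructuralRankNumberField
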