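import Pool.Agent.L0h64.RP.HyD
import Pool.Agent.L0h64.RP.Sys
import Pool.Agent.Results.MP_1eadae_ag.Hyperlogarithms

/-!
# The hyperlogarithms over arbitrary fields: all tuples outside a bounded number of integers in short windows

The periods of the unipotent fundamental group of `ℙ¹ ∖ {0, α_1, …, α_r, ∞}`, `α_a` pairwise different nonzero integers, from
the tangential base point at `0` to the point `1 / m` (in the coordinate `y` for which the punctures are `0` and `1 / α_a`),
`m` an integer: `log m` and the hyperlogarithms `HL_w(1 / m)`, the iterated integrals of the forms `dy / y` and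
`dy / (1 - α_a y)`. By the shuffle relations all of them are polynomials with rational coefficients in `log m` and in the
`HL_w(1 / m)`, `w` a Lyndon word different from the word of `dy / y`. The period conjecture predicts that for general integers
these numbers satisfy no relations over number fields. We prove such a result in bounded degree, for several points
`1 / m_1, …, 1 / m_k` and over ARBITRARY finitely generated fields of coefficients `K(x_1, …, x_s)`, `x_i` complex numbers (for
instance multiple zeta values, other hyperlogarithms, or any other periods), outside of a bounded number of integers: there is a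
set `S` of at most `s + 1` integers (`s` integers if we consider the numbers `HL_w(1 / m)` without the logarithms) in a short
window, which depends only on the window and the numbers `x_i`, such that for all tuples of different elements of the window
outside of `S` there is no relation of degree at most `δ` over `K(x_1, …, x_s)` at all.
-/

set_option autoImplicit false

namespace Pool.Agent.Results.MP_1eadae_ag.TuplesOverArbitraryFields

open Pool.Agent.Results.MP_1eadae_ag.Hyperlogarithms (HL)

variable {r : ℕ}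

/-- The rank of a letter in the order `none < some 0 < some 1 < …`. -/
def rank : Option (Fin r) → ℕ
  | none => 0
  | some a => (a : ℕ) + 1

/-- The lexicographic order of words (a proper prefix is smaller). -/
def Before (u v : List (Option (Fin r))) : Prop := List.Lex (fun a b => rank a < rank b) u v

/-- Lyndon words: nonempty words smaller than all their proper nonempty suffixes. -/
def Lyndon (w : List (Option (Fin r))) : Prop := w ≠ [] ∧ ∀ u v, w = u ++ v → u ≠ [] → v ≠ [] → Before w v

/-- The Lyndon words of length at most `W`, different from the word with the only letter `none`. -/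
def Generator (r W : ℕ) : Type := {w : List (Option (Fin r)) // Lyndon w ∧ w ≠ [none] ∧ w.length ≤ W}

/-- The numbers `z_i`, `i ∈ I`, satisfy no polynomial relation of degree at most `δ` over `K(x_1, …, x_s)`: if a polynomial
in `x_1, …, x_s` and in the `z_i` of degree at most `δ` with coefficients in `K` vanishes, then it vanishes at `(x_1, …, x_s, y)`
for all `y`. -/
def Independent {s : ℕ} {I : Type} (δ : ℕ) (K : IntermediateField ℚ ℂ) (x : Fin s → ℂ) (z : I → ℂ) : Prop :=
  ∀ Q : MvPolynomial (Fin s ⊕ I) K, Q.totalDegree ≤ δ → MvPolynomial.aeval (Sum.elim x z) Q = 0 →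
    ∀ y : I → ℂ, MvPolynomial.aeval (Sum.elim x y) Q = 0

/-- The numbers `HL_w(1 / m_l)`, `w` a Lyndon word of length at most `W` different from `[none]`. -/
noncomputable def values (α : Fin r → ℤ) (W : ℕ) {k : ℕ} (m : Fin k → ℕ) (p : Fin k × Generator r W) : ℂ :=
  ((HL α p.2.1 (1 / (m p.1 : ℝ)) : ℝ) : ℂ)

/-- The numbers `log m_l` and `HL_w(1 / m_l)`, `w` a Lyndon word of length at most `W` different from `[none]`. -/
noncomputable def allValues (α : Fin r → ℤ) (W : ℕ) {k : ℕ} (m : Fin k → ℕ) (p : Fin k × Option (Generator r W)) : ℂ :=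
  p.2.elim ((Real.log (m p.1) : ℝ) : ℂ) fun w => values α W m (p.1, w)

section proofs

open Pool.Agent.L0h64.RP

lemma before_map {u v : List (Option (Fin r))} (h : Before u v) : u.map Hy.rk < v.map Hy.rk := by
  unfold Before at h
  induction h with
  | nil => exact List.nil_lt_cons _ _
  | cons h ih => exact List.cons_lt_cons_iff.2 (Or.inr ⟨rfl, ih⟩)
  | @rel a _ b _ h =>
    refine List.cons_lt_cons_iff.2 (Or.inl ?_)
    rcases a with _ | a <;> rcases b with _ | b <;> exact h

lemma map_before : ∀ {u v : List (Option (Fin r))}, u.map Hy.rk < v.map Hy.rk → Before u v := by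
  intro u
  induction u with
  | nil =>
    intro v h
    rcases v with _ | ⟨b, v⟩
    · exact absurd h (lt_irrefl _)
    · exact List.Lex.nil
  | cons a u ih =>
    intro v h
    rcases v with _ | ⟨b, v⟩
    · exact absurd h (List.not_lt_nil _)
    · rw [List.map_cons, List.map_cons, List.cons_lt_cons_iff] at h
      rcases h with h | ⟨h, h'⟩
      · refine List.Lex.rel ?_
        rcases a with _ | a <;> rcases b with _ | b <;> exact h
      · rw [Hy.rk_inj h]
        exact List.Lex.cons (ih h')

lemma lyndon_iff (w : List (Option (Fin r))) : Lyndon w ↔ Hy.Ly Hy.rk w := by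
  constructor
  · intro h
    refine ⟨fun h1 => h.1 (List.map_eq_nil_iff.1 h1), fun u v h1 hu hv => ?_⟩
    obtain ⟨u', v', rfl, rfl, rfl⟩ := List.map_eq_append_iff.1 h1
    exact before_map (h.2 u' v' rfl (fun h2 => hu (by rw [h2]; rfl)) fun h2 => hv (by rw [h2]; rfl))
  · intro h
    refine ⟨fun h1 => h.1 (by rw [h1]; rfl), fun u v h1 hu hv => map_before ?_⟩
    exact h.2 (u.map Hy.rk) (v.map Hy.rk) (by rw [h1, List.map_append]) (fun h2 => hu (List.map_eq_nil_iff.1 h2))
      fun h2 => hv (List.map_eq_nil_iff.1 h2)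

/-- the generators -/
def toLW {W : ℕ} : Hy.LW r W ≃ Generator r W :=
  Equiv.subtypeEquivRight fun w => by
    unfold Hy.IsL
    rw [lyndon_iff, and_assoc]

lemma ind_of {s : ℕ} {I J : Type} {δ : ℕ} {K : IntermediateField ℚ ℂ} {x : Fin s → ℂ} {z : I → ℂ} {z' : J → ℂ}
    (e : J ≃ I) (he : ∀ j, z' j = z (e j)) (h : Hy.IndI δ K x z') : Independent δ K x z := by
  intro Q hQ hQ0 y
  have h2 := h (MvPolynomial.rename (Sum.map id e.symm) Q) ((MvPolynomial.totalDegree_rename_le _ _).trans hQ) (by
    rw [MvPolynomial.aeval_rename, ← hQ0]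
    congr 1
    congr 1
    funext i
    rcases i with i | i
    · rfl
    · change z' (e.symm i) = z i
      rw [he, e.apply_symm_apply]) (fun j => y (e j))
  rw [MvPolynomial.aeval_rename] at h2
  rw [← h2]
  congr 1
  congr 1
  funext i
  rcases i with i | i
  · rfl
  · change y i = y (e (e.symm i))
    rw [e.apply_symm_apply]

end proofs

/-- Let `α_1, …, α_r` be pairwise different nonzero integers and `W` a natural number. There is `G` such that for all `k`,
`δ`, `D`, `s` there are `c > 0` and `M₀` such that for all `M ≥ M₀`, all sets `V` of integers in `[M, M + M^c]` at distance at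
least `G` of each other and all complex numbers `x_1, …, x_s`:

1. there is a set `S` of at most `s + 1` integers such that for all `k`-tuples of different elements `m_1, …, m_k` of `V`
outside of `S` and all number fields `K` of degree at most `D` the numbers `log m_l` and `HL_w(1 / m_l)`, `l = 1, …, k`, `w` a
Lyndon word of length at most `W` different from `[none]`, satisfy no polynomial relation of degree at most `δ` over
`K(x_1, …, x_s)`;
2. the same is true for the numbers `HL_w(1 / m_l)`, without the logarithms, for a set `S` of at most `s` integers. -/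
theorem result (r : ℕ) (α : Fin r → ℤ) (hα : Function.Injective α) (h0 : ∀ a, α a ≠ 0) (W : ℕ) :
    ∃ G : ℕ, ∀ k δ D s : ℕ, ∃ (c : ℝ) (M₀ : ℕ), 0 < c ∧ ∀ M : ℕ, M₀ ≤ M → ∀ V : Set ℕ,
      (∀ m ∈ V, M ≤ m ∧ (m : ℝ) ≤ M + (M : ℝ) ^ c) → (∀ m ∈ V, ∀ m' ∈ V, m ≠ m' → (G : ℤ) ≤ |(m : ℤ) - m'|) →
      ∀ x : Fin s → ℂ,
        (∃ S : Finset ℕ, S.card ≤ s + 1 ∧
          ∀ m : Fin k → ℕ, Function.Injective m → (∀ l, m l ∈ V ∧ m l ∉ S) →
          ∀ (K : IntermediateField ℚ ℂ) [FiniteDimensional ℚ K], Module.finrank ℚ K ≤ D →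
            Independent δ K x (allValues α W m)) ∧
        (∃ S : Finset ℕ, S.card ≤ s ∧
          ∀ m : Fin k → ℕ, Function.Injective m → (∀ l, m l ∈ V ∧ m l ∉ S) →
          ∀ (K : IntermediateField ℚ ℂ) [FiniteDimensional ℚ K], Module.finrank ℚ K ≤ D →
            Independent δ K x (values α W m)) := by
  classical
  obtain ⟨G0, hG0⟩ : ∃ G0 : ℕ, G0 = 2 * Pool.Agent.Y119.ML.ex α := ⟨_, rfl⟩
  refine ⟨G0, fun k δ D s => ?_⟩
  obtain ⟨E₁, hE₁⟩ := Pool.Agent.L0h64.RP.Hy.rel_h α hα h0 W k δ D s
  obtain ⟨E₂, hE₂⟩ := Pool.Agent.L0h64.RP.Hy.rel_n α hα h0 W k δ D s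
  rw [← hG0] at hE₁ hE₂
  obtain ⟨c, M₀, hc, hw⟩ := Pool.Agent.Y124.TD.window (E₁ + E₂) G0
  refine ⟨c, M₀, hc, fun M hM V hV1 hV2 x => ?_⟩
  obtain ⟨Q, hQ⟩ : ∃ Q : ℕ, Q = M + (⌊(M : ℝ) ^ c⌋₊ + G0) := ⟨_, rfl⟩
  have hle : ∀ m ∈ V, m + G0 ≤ Q := by
    intro m hm
    have h1 := (hV1 m hm).2
    have h2 : ((m - M : ℕ) : ℝ) ≤ (M : ℝ) ^ c := by
      rw [Nat.cast_sub (hV1 m hm).1]
      linarith
    have h3 := Nat.le_floor h2
    have := (hV1 m hm).1
    omega
  have hpow : (⌊(M : ℝ) ^ c⌋₊ + G0 + 2) ^ (E₁ + E₂) ≤ Q := (hw M hM).trans (by omega)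
  have hsep : Pool.Agent.L0h64.RP.SepW G0 (⌊(M : ℝ) ^ c⌋₊ + G0) ((fun m => Q - m) '' V) := by
    refine ⟨?_, ?_⟩
    · rintro _ ⟨m, hm, rfl⟩
      have h1 := hle m hm
      have h2 := (hV1 m hm).1
      change G0 ≤ Q - m ∧ Q - m ≤ _
      omega
    · rintro _ ⟨m, hm, rfl⟩ _ ⟨m', hm', rfl⟩ hne
      have h1 := hle m hm
      have h2 := hle m' hm'
      have h3 : m ≠ m' := by
        rintro rfl
        exact hne rfl
      have h4 := hV2 m hm m' hm' h3
      change Q - m + G0 ≤ Q - m' ∨ Q - m' + G0 ≤ Q - m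
      rcases le_total m m' with h7 | h7
      · right
        rw [abs_of_nonpos (by omega)] at h4
        omega
      · left
        rw [abs_of_nonneg (by omega)] at h4
        omega
  have hQc : ∀ m ∈ V, (Q : ℝ) - ((Q - m : ℕ) : ℝ) = m := fun m hm => by
    have := hle m hm
    rw [Nat.cast_sub (by omega)]
    ring
  have hHL : ∀ (w : List (Option (Fin r))) (y : ℝ), Pool.Agent.Y119.ML.HL α w y = HL α w y := fun w y => by
    rw [Pool.Agent.Results.MP_1eadae_ag.Hyperlogarithms.HL_eq']
  -- the tuples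
  have htup : ∀ (S : Finset ℕ) (m : Fin k → ℕ), Function.Injective m →
      (∀ l, m l ∈ V ∧ m l ∉ S.image fun g => Q - g) →
      Function.Injective (fun l => Q - m l) ∧ (∀ l, Q - m l ∈ (fun m => Q - m) '' V ∧ Q - m l ∉ S) ∧
        ∀ l, Q - (Q - m l) = m l := by
    intro S m hm hmV
    have hQm : ∀ l, Q - (Q - m l) = m l := fun l => by
      have := hle (m l) (hmV l).1
      omega
    refine ⟨fun l l' hll => ?_, fun l => ⟨⟨m l, (hmV l).1, rfl⟩, fun h => (hmV l).2 (Finset.mem_image.2 ⟨_, h, hQm l⟩)⟩,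
      hQm⟩
    apply hm
    have h1 : Q - (Q - m l) = Q - (Q - m l') := congrArg (fun a => Q - a) hll
    rwa [hQm, hQm] at h1
  constructor
  · obtain ⟨S, hS, h1⟩ := hE₁ (⌊(M : ℝ) ^ c⌋₊ + G0) Q ((Nat.pow_le_pow_right (by omega) (by omega)).trans hpow) _ hsep x
    refine ⟨S.image fun g => Q - g, Finset.card_image_le.trans hS, fun m hm hmV K hK hKD => ?_⟩
    obtain ⟨a1, a2, a3⟩ := htup S m hm hmV
    have h2 := h1 (fun l => Q - m l) a1 a2 K hK hKD
    refine ind_of (z' := Pool.Agent.L0h64.RP.Hy.zh α (W := W) Q fun l => Q - m l)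
      (Equiv.prodCongr (Equiv.refl (Fin k)) (Equiv.optionCongr toLW)) ?_ h2
    rintro ⟨l, o⟩
    rcases o with _ | w
    · change ((Real.log ((Q - (Q - m l) : ℕ) : ℝ) : ℝ) : ℂ) = ((Real.log (m l : ℝ) : ℝ) : ℂ)
      rw [a3]
    · change ((Pool.Agent.Y119.ML.HL α w.1 (1 / ((Q : ℝ) - ((Q - m l : ℕ) : ℝ))) : ℝ) : ℂ) =
        ((HL α w.1 (1 / (m l : ℝ)) : ℝ) : ℂ)
      rw [hQc _ (hmV l).1, hHL]
  · obtain ⟨S, hS, h1⟩ := hE₂ (⌊(M : ℝ) ^ c⌋₊ + G0) Q ((Nat.pow_le_pow_right (by omega) (by omega)).trans hpow) _ hsep x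
    refine ⟨S.image fun g => Q - g, Finset.card_image_le.trans hS, fun m hm hmV K hK hKD => ?_⟩
    obtain ⟨a1, a2, a3⟩ := htup S m hm hmV
    have h2 := h1 (fun l => Q - m l) a1 a2 K hK hKD
    refine ind_of (z' := Pool.Agent.L0h64.RP.Hy.zn α (W := W) Q fun l => Q - m l)
      (Equiv.prodCongr (Equiv.refl (Fin k)) toLW) ?_ h2
    rintro ⟨l, w⟩
    change ((Pool.Agent.Y119.ML.HL α w.1 (1 / ((Q : ℝ) - ((Q - m l : ℕ) : ℝ))) : ℝ) : ℂ) =
      ((HL α w.1 (1 / (m l : ℝ)) : ℝ) : ℂ)
    rw [hQc _ (hmV l).1, hHL]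

end Pool.Agent.Results.MP_1eadae_ag.TuplesOverArbitraryFields
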